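import Mathlib

/-!
Counting maps whose graph avoids a dense relation: supersaturation for `K_{3,3,3}` and a container
argument.
-/

set_option autoImplicit false

namespace Pool.Agent.H129.CX.Count

open Finset

section jensen

lemma cube_le {A : Type*} [Fintype A] (f : A → ℝ) (hf : ∀ a, 0 ≤ f a) :
    (∑ a, f a) ^ 3 ≤ (Fintype.card A : ℝ) ^ 2 * ∑ a, f a ^ 3 := by
  rcases isEmpty_or_nonempty A with hA | hA
  · simp
  have h := pow_sum_div_card_le_sum_pow (s := (univ : Finset A)) (f := f) (fun i _ => hf i) 2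
  have hc : (0 : ℝ) < (Fintype.card A : ℝ) ^ 2 := by
    have : 0 < Fintype.card A := Fintype.card_pos
    positivity
  rw [Finset.card_univ, div_le_iff₀ hc] at h
  norm_num at h
  linarith

variable {A B Y : Type} [Fintype A] [Fintype B] [Fintype Y]

/-- The number of homomorphic copies of `K_{3,3,3}` in a tripartite hypergraph. -/
theorem copies (u : A → B → Y → ℝ) (hu : ∀ a b y, 0 ≤ u a b y) :
    (∑ a, ∑ b, ∑ y, u a b y) ^ 27 ≤
      (Fintype.card A : ℝ) ^ 24 * (Fintype.card B : ℝ) ^ 24 * (Fintype.card Y : ℝ) ^ 24 *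
      ∑ a : Fin 3 → A, ∑ b : Fin 3 → B, ∑ y : Fin 3 → Y,
        ∏ i, ∏ j, ∏ k, u (a i) (b j) (y k) := by
  set nA : ℝ := (Fintype.card A : ℝ)
  set nB : ℝ := (Fintype.card B : ℝ)
  set nY : ℝ := (Fintype.card Y : ℝ)
  have hnA : 0 ≤ nA := Nat.cast_nonneg _
  have hnB : 0 ≤ nB := Nat.cast_nonneg _
  have hnY : 0 ≤ nY := Nat.cast_nonneg _
  -- innermost sums
  set G : (Fin 3 → A) → (Fin 3 → B) → ℝ := fun a b => ∑ y, ∏ i, ∏ j, u (a i) (b j) y with hG
  have hG0 : ∀ a b, 0 ≤ G a b := fun a b =>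
    sum_nonneg fun y _ => prod_nonneg fun i _ => prod_nonneg fun j _ => hu _ _ _
  have e1 : ∀ a b, ∑ y : Fin 3 → Y, ∏ i, ∏ j, ∏ k, u (a i) (b j) (y k) = G a b ^ 3 := by
    intro a b
    rw [hG]
    simp only
    rw [Fintype.sum_pow]
    refine sum_congr rfl fun y _ => ?_
    have : ∀ i : Fin 3, ∏ j, ∏ k, u (a i) (b j) (y k) = ∏ k, ∏ j, u (a i) (b j) (y k) :=
      fun i => prod_comm
    rw [prod_congr rfl fun i _ => this i, prod_comm]
  have c1 : (∑ a, ∑ b, G a b) ^ 3 ≤ (nA ^ 3 * nB ^ 3) ^ 2 * ∑ a, ∑ b, G a b ^ 3 := by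
    have h := cube_le (A := (Fin 3 → A) × (Fin 3 → B)) (fun p => G p.1 p.2) (fun p => hG0 _ _)
    rw [Fintype.sum_prod_type, Fintype.sum_prod_type, Fintype.card_prod] at h
    simp only [Fintype.card_pi, prod_const, card_univ, Fintype.card_fin, Nat.cast_mul,
      Nat.cast_pow] at h
    exact h
  -- the second level
  set H : (Fin 3 → A) → ℝ := fun a => ∑ y, ∑ b, ∏ i, u (a i) b y with hH
  have hH0 : ∀ a, 0 ≤ H a := fun a =>
    sum_nonneg fun y _ => sum_nonneg fun b _ => prod_nonneg fun i _ => hu _ _ _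
  have e2 : ∀ a, ∑ b, G a b = ∑ y, (∑ b, ∏ i, u (a i) b y) ^ 3 := by
    intro a
    rw [hG]
    simp only
    rw [sum_comm]
    refine sum_congr rfl fun y _ => ?_
    rw [Fintype.sum_pow]
    refine sum_congr rfl fun b _ => ?_
    rw [prod_comm]
  have c2 : ∀ a, H a ^ 3 ≤ nY ^ 2 * ∑ b, G a b := by
    intro a
    rw [e2 a]
    exact cube_le _ fun y => sum_nonneg fun b _ => prod_nonneg fun i _ => hu _ _ _
  have c3 : (∑ a, H a) ^ 3 ≤ (nA ^ 3) ^ 2 * ∑ a, H a ^ 3 := by
    have h := cube_le (A := Fin 3 → A) H hH0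
    simp only [Fintype.card_pi, prod_const, card_univ, Fintype.card_fin, Nat.cast_pow] at h
    exact h
  -- the third level
  have e3 : ∑ a, H a = ∑ y, ∑ b, (∑ a, u a b y) ^ 3 := by
    rw [hH]
    simp only
    rw [sum_comm]
    refine sum_congr rfl fun y _ => ?_
    rw [sum_comm]
    refine sum_congr rfl fun b _ => ?_
    rw [Fintype.sum_pow]
  have c4 : (∑ a, ∑ b, ∑ y, u a b y) ^ 3 ≤ (nY * nB) ^ 2 * ∑ a, H a := by
    have h := cube_le (A := Y × B) (fun p => ∑ a, u a p.2 p.1)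
      (fun p => sum_nonneg fun a _ => hu _ _ _)
    rw [Fintype.sum_prod_type, Fintype.sum_prod_type, Fintype.card_prod] at h
    rw [e3]
    have e4 : ∑ a, ∑ b, ∑ y, u a b y = ∑ y, ∑ b, ∑ a, u a b y := by
      have : ∀ a, ∑ b, ∑ y, u a b y = ∑ y, ∑ b, u a b y := fun a => sum_comm
      rw [sum_congr rfl fun a _ => this a, sum_comm]
      refine sum_congr rfl fun y _ => ?_
      rw [sum_comm]
    rw [e4]
    simpa [nY, nB] using h
  have hS0 : 0 ≤ ∑ a, ∑ b, ∑ y, u a b y :=
    sum_nonneg fun a _ => sum_nonneg fun b _ => sum_nonneg fun y _ => hu _ _ _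
  have hHs : 0 ≤ ∑ a, H a := sum_nonneg fun a _ => hH0 a
  have hGs : 0 ≤ ∑ a, ∑ b, G a b := sum_nonneg fun a _ => sum_nonneg fun b _ => hG0 a b
  have c5 : ∑ a, H a ^ 3 ≤ nY ^ 2 * ∑ a, ∑ b, G a b := by
    rw [mul_sum]
    exact sum_le_sum fun a _ => c2 a
  have c6 : (∑ a, H a) ^ 3 ≤ nA ^ 6 * nY ^ 2 * ∑ a, ∑ b, G a b := by
    calc (∑ a, H a) ^ 3 ≤ (nA ^ 3) ^ 2 * ∑ a, H a ^ 3 := c3
      _ ≤ (nA ^ 3) ^ 2 * (nY ^ 2 * ∑ a, ∑ b, G a b) := by gcongr
      _ = _ := by ring
  have e5 : ∑ a : Fin 3 → A, ∑ b : Fin 3 → B, ∑ y : Fin 3 → Y,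
        ∏ i, ∏ j, ∏ k, u (a i) (b j) (y k) = ∑ a, ∑ b, G a b ^ 3 :=
    sum_congr rfl fun a _ => sum_congr rfl fun b _ => e1 a b
  rw [e5]
  calc (∑ a, ∑ b, ∑ y, u a b y) ^ 27 = ((∑ a, ∑ b, ∑ y, u a b y) ^ 3) ^ 9 := by ring
    _ ≤ ((nY * nB) ^ 2 * ∑ a, H a) ^ 9 := by gcongr
    _ = (nY * nB) ^ 18 * ((∑ a, H a) ^ 3) ^ 3 := by ring
    _ ≤ (nY * nB) ^ 18 * (nA ^ 6 * nY ^ 2 * ∑ a, ∑ b, G a b) ^ 3 := by gcongr
    _ = (nY * nB) ^ 18 * (nA ^ 6 * nY ^ 2) ^ 3 * (∑ a, ∑ b, G a b) ^ 3 := by ring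
    _ ≤ (nY * nB) ^ 18 * (nA ^ 6 * nY ^ 2) ^ 3 *
        ((nA ^ 3 * nB ^ 3) ^ 2 * ∑ a, ∑ b, G a b ^ 3) := by gcongr
    _ = _ := by ring

end jensen

section supersat

lemma noninj_card (A : Type) [Fintype A] [DecidableEq A] :
    (univ.filter (fun a : Fin 3 → A => ¬ Function.Injective a)).card ≤ 3 * Fintype.card A ^ 2 := by
  classical
  have h1 : (univ.filter (fun a : Fin 3 → A => Function.Injective a)).card =
      (Fintype.card A).descFactorial 3 := by
    have h := Fintype.card_embedding_eq (α := Fin 3) (β := A)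
    rw [Fintype.card_fin] at h
    rw [← h, ← Fintype.card_subtype]
    exact Fintype.card_congr (Equiv.subtypeInjectiveEquivEmbedding (Fin 3) A)
  have h2 := Finset.card_filter_add_card_filter_not (s := (univ : Finset (Fin 3 → A)))
    (fun a => Function.Injective a)
  rw [h1, card_univ, Fintype.card_pi, prod_const, card_univ, Fintype.card_fin] at h2
  set n := Fintype.card A
  have h3 : n ^ 3 ≤ n.descFactorial 3 + 3 * n ^ 2 := by
    rcases n with _ | _ | n
    · simp
    · simp [Nat.descFactorial]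
    · simp only [Nat.descFactorial]
      have e1 : n + 1 + 1 - 2 = n := by omega
      have e2 : n + 1 + 1 - 1 = n + 1 := by omega
      rw [e1, e2]
      simp only [Nat.sub_zero, mul_one]
      nlinarith
  omega

lemma third (i i' : Fin 3) (h : i ≠ i') : ∃ t : Fin 3, ∀ j, j = i ∨ j = i' ∨ j = t := by
  revert i i'; decide

lemma fixed_two {A : Type} [Fintype A] [DecidableEq A] (i i' : Fin 3) (h : i ≠ i') (x x' : A) :
    (univ.filter (fun a : Fin 3 → A => a i = x ∧ a i' = x')).card ≤ Fintype.card A := by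
  obtain ⟨t, ht⟩ := third i i' h
  rw [← card_univ]
  refine card_le_card_of_injOn (fun a => a t) (fun _ _ => by simp) ?_
  intro a ha b hb hab
  simp only [coe_filter, mem_univ, true_and, Set.mem_ofPred_eq] at ha hb
  funext j
  rcases ht j with rfl | rfl | rfl
  · rw [ha.1, hb.1]
  · rw [ha.2, hb.2]
  · exact hab

variable {A B Y : Type} [Fintype A] [Fintype B] [Fintype Y] [DecidableEq A] [DecidableEq B]
  [DecidableEq Y]

/-- every copy of `K_{3,3,3}` contains a related pair of vertex disjoint edges -/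
def Dense333 (X : A × B × Y → A × B × Y → Prop) : Prop :=
  ∀ (a : Fin 3 → A) (b : Fin 3 → B) (y : Fin 3 → Y), Function.Injective a → Function.Injective b →
    Function.Injective y → ∃ i i' j j' k k', i ≠ i' ∧ j ≠ j' ∧ k ≠ k' ∧
      X (a i, b j, y k) (a i', b j', y k')

open Classical in
theorem copies_le (X : A × B × Y → A × B × Y → Prop) (hX : Dense333 X) (U : Finset (A × B × Y)) :
    (univ.filter (fun q : (Fin 3 → A) × (Fin 3 → B) × (Fin 3 → Y) =>
      ∀ i j k, (q.1 i, q.2.1 j, q.2.2 k) ∈ U)).card ≤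
    3 * Fintype.card A ^ 2 * Fintype.card B ^ 3 * Fintype.card Y ^ 3 +
    3 * Fintype.card A ^ 3 * Fintype.card B ^ 2 * Fintype.card Y ^ 3 +
    3 * Fintype.card A ^ 3 * Fintype.card B ^ 3 * Fintype.card Y ^ 2 +
    729 * ((U ×ˢ U).filter (fun p => X p.1 p.2)).card *
      (Fintype.card A * Fintype.card B * Fintype.card Y) := by
  set Ed := (U ×ˢ U).filter (fun p => X p.1 p.2) with hEd
  set Na := univ.filter (fun a : Fin 3 → A => ¬ Function.Injective a)
  set Nb := univ.filter (fun a : Fin 3 → B => ¬ Function.Injective a)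
  set Ny := univ.filter (fun a : Fin 3 → Y => ¬ Function.Injective a)
  let S1 : Finset ((Fin 3 → A) × (Fin 3 → B) × (Fin 3 → Y)) := Na ×ˢ univ ×ˢ univ
  let S2 : Finset ((Fin 3 → A) × (Fin 3 → B) × (Fin 3 → Y)) := univ ×ˢ Nb ×ˢ univ
  let S3 : Finset ((Fin 3 → A) × (Fin 3 → B) × (Fin 3 → Y)) := univ ×ˢ univ ×ˢ Ny
  let I := (Fin 3 × Fin 3) × (Fin 3 × Fin 3) × (Fin 3 × Fin 3)
  let V : I → Prop := fun s => s.1.1 ≠ s.1.2 ∧ s.2.1.1 ≠ s.2.1.2 ∧ s.2.2.1 ≠ s.2.2.2
  let F : I → (A × B × Y) × (A × B × Y) → Finset ((Fin 3 → A) × (Fin 3 → B) × (Fin 3 → Y)) :=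
    fun s p => (univ.filter (fun a : Fin 3 → A => a s.1.1 = p.1.1 ∧ a s.1.2 = p.2.1)) ×ˢ
      (univ.filter (fun a : Fin 3 → B => a s.2.1.1 = p.1.2.1 ∧ a s.2.1.2 = p.2.2.1)) ×ˢ
      (univ.filter (fun a : Fin 3 → Y => a s.2.2.1 = p.1.2.2 ∧ a s.2.2.2 = p.2.2.2))
  let S4 : Finset ((Fin 3 → A) × (Fin 3 → B) × (Fin 3 → Y)) :=
    (univ.filter V).biUnion fun s => Ed.biUnion fun p => F s p
  have hsub : (univ.filter (fun q : (Fin 3 → A) × (Fin 3 → B) × (Fin 3 → Y) =>
      ∀ i j k, (q.1 i, q.2.1 j, q.2.2 k) ∈ U)) ⊆ S1 ∪ S2 ∪ S3 ∪ S4 := by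
    rintro ⟨a, b, y⟩ hq
    simp only [mem_filter, mem_univ, true_and] at hq
    by_cases ha : Function.Injective a
    · by_cases hb : Function.Injective b
      · by_cases hy : Function.Injective y
        · obtain ⟨i, i', j, j', k, k', hi, hj, hk, hx⟩ := hX a b y ha hb hy
          refine mem_union_right _ ?_
          refine mem_biUnion.2 ⟨((i, i'), (j, j'), (k, k')), by simp [V, hi, hj, hk], ?_⟩
          refine mem_biUnion.2 ⟨((a i, b j, y k), (a i', b j', y k')), ?_, ?_⟩
          · simp only [hEd, mem_filter, mem_product]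
            exact ⟨⟨hq _ _ _, hq _ _ _⟩, hx⟩
          · simp [F]
        · refine mem_union_left _ (mem_union_right _ ?_)
          simp [S3, Ny, hy]
      · refine mem_union_left _ (mem_union_left _ (mem_union_right _ ?_))
        simp [S2, Nb, hb]
    · refine mem_union_left _ (mem_union_left _ (mem_union_left _ ?_))
      simp [S1, Na, ha]
  have h1 : S1.card ≤ 3 * Fintype.card A ^ 2 * Fintype.card B ^ 3 * Fintype.card Y ^ 3 := by
    simp only [S1, card_product, card_univ, Fintype.card_pi, prod_const, Fintype.card_fin]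
    have := noninj_card A
    calc Na.card * (Fintype.card B ^ 3 * Fintype.card Y ^ 3)
        ≤ (3 * Fintype.card A ^ 2) * (Fintype.card B ^ 3 * Fintype.card Y ^ 3) := by gcongr
      _ = _ := by ring
  have h2 : S2.card ≤ 3 * Fintype.card A ^ 3 * Fintype.card B ^ 2 * Fintype.card Y ^ 3 := by
    simp only [S2, card_product, card_univ, Fintype.card_pi, prod_const, Fintype.card_fin]
    have := noninj_card B
    calc Fintype.card A ^ 3 * (Nb.card * Fintype.card Y ^ 3)
        ≤ Fintype.card A ^ 3 * ((3 * Fintype.card B ^ 2) * Fintype.card Y ^ 3) := by gcongr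
      _ = _ := by ring
  have h3 : S3.card ≤ 3 * Fintype.card A ^ 3 * Fintype.card B ^ 3 * Fintype.card Y ^ 2 := by
    simp only [S3, card_product, card_univ, Fintype.card_pi, prod_const, Fintype.card_fin]
    have := noninj_card Y
    calc Fintype.card A ^ 3 * (Fintype.card B ^ 3 * Ny.card)
        ≤ Fintype.card A ^ 3 * (Fintype.card B ^ 3 * (3 * Fintype.card Y ^ 2)) := by gcongr
      _ = _ := by ring
  have h4 : S4.card ≤ 729 * Ed.card * (Fintype.card A * Fintype.card B * Fintype.card Y) := by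
    have hF : ∀ s ∈ univ.filter V, ∀ p ∈ Ed, (F s p).card ≤
        Fintype.card A * Fintype.card B * Fintype.card Y := by
      intro s hs p _
      simp only [mem_filter, mem_univ, true_and, V] at hs
      simp only [F, card_product]
      rw [mul_assoc]
      exact Nat.mul_le_mul (fixed_two _ _ hs.1 _ _)
        (Nat.mul_le_mul (fixed_two _ _ hs.2.1 _ _) (fixed_two _ _ hs.2.2 _ _))
    calc S4.card ≤ ∑ s ∈ univ.filter V, (Ed.biUnion fun p => F s p).card := card_biUnion_le
      _ ≤ ∑ s ∈ univ.filter V, Ed.card * (Fintype.card A * Fintype.card B * Fintype.card Y) := by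
          refine sum_le_sum fun s hs => ?_
          calc (Ed.biUnion fun p => F s p).card ≤ ∑ p ∈ Ed, (F s p).card := card_biUnion_le
            _ ≤ ∑ p ∈ Ed, Fintype.card A * Fintype.card B * Fintype.card Y :=
                sum_le_sum fun p hp => hF s hs p hp
            _ = _ := by rw [sum_const, smul_eq_mul]
      _ = (univ.filter V).card * (Ed.card *
          (Fintype.card A * Fintype.card B * Fintype.card Y)) := by rw [sum_const, smul_eq_mul]
      _ ≤ 729 * (Ed.card * (Fintype.card A * Fintype.card B * Fintype.card Y)) := by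
          gcongr
          calc (univ.filter V).card ≤ (univ : Finset I).card := card_filter_le _ _
            _ = 729 := by simp [I, card_univ]
      _ = _ := by ring
  calc _ ≤ (S1 ∪ S2 ∪ S3 ∪ S4).card := card_le_card hsub
    _ ≤ (S1 ∪ S2 ∪ S3).card + S4.card := card_union_le _ _
    _ ≤ ((S1 ∪ S2).card + S3.card) + S4.card := by gcongr; exact card_union_le _ _
    _ ≤ ((S1.card + S2.card) + S3.card) + S4.card := by gcongr; exact card_union_le _ _
    _ ≤ _ := by gcongr

open Classical in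
/-- Supersaturation: in a dense set of edges some edge is related to many edges. -/
theorem dense_vertex (N : ℕ) (hA : Fintype.card A = N) (hB : Fintype.card B = N)
    (hY : Fintype.card Y = 3 * N) (X : A × B × Y → A × B × Y → Prop) (hX : Dense333 X)
    (α : ℝ) (hα : 0 < α) (hN : 14 ≤ α ^ 27 * N) (U : Finset (A × B × Y))
    (hU : 3 * α * (N : ℝ) ^ 3 ≤ U.card) :
    ∃ v ∈ U, α ^ 27 / 1458 * (U.card : ℝ) ≤ ((U.filter (fun u => X v u)).card : ℝ) := by
  have hN0 : (0 : ℝ) < N := by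
    by_contra h
    have : (N : ℝ) = 0 := le_antisymm (not_lt.1 h) (Nat.cast_nonneg _)
    rw [this] at hN
    norm_num at hN
  set K := (univ.filter (fun q : (Fin 3 → A) × (Fin 3 → B) × (Fin 3 → Y) =>
      ∀ i j k, (q.1 i, q.2.1 j, q.2.2 k) ∈ U)).card with hK
  set E := ((U ×ˢ U).filter (fun p => X p.1 p.2)).card with hE
  -- lower bound for `K`
  have h1 : (U.card : ℝ) ^ 27 ≤ (N : ℝ) ^ 24 * (N : ℝ) ^ 24 * ((3 * N : ℕ) : ℝ) ^ 24 * K := by
    have h := copies (A := A) (B := B) (Y := Y) (fun a b y => if (a, b, y) ∈ U then 1 else 0)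
      (fun a b y => by positivity)
    rw [hA, hB, hY] at h
    have e1 : ∑ a : A, ∑ b : B, ∑ y : Y, (if (a, b, y) ∈ U then (1 : ℝ) else 0) = U.card := by
      have : ∑ p : A × B × Y, (if p ∈ U then (1 : ℝ) else 0) = U.card := by
        rw [← Finset.sum_filter]
        simp
      rw [← this, Fintype.sum_prod_type]
      refine sum_congr rfl fun a _ => ?_
      rw [Fintype.sum_prod_type]
    have e2 : ∑ a : Fin 3 → A, ∑ b : Fin 3 → B, ∑ y : Fin 3 → Y,
        ∏ i, ∏ j, ∏ k, (if (a i, b j, y k) ∈ U then (1 : ℝ) else 0) = K := by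
      have e3 : (K : ℝ) = ∑ q : (Fin 3 → A) × (Fin 3 → B) × (Fin 3 → Y),
          (if ∀ i j k, (q.1 i, q.2.1 j, q.2.2 k) ∈ U then (1 : ℝ) else 0) := by
        rw [← Finset.sum_filter, hK]
        simp
      rw [e3, Fintype.sum_prod_type]
      refine sum_congr rfl fun a _ => ?_
      rw [Fintype.sum_prod_type]
      refine sum_congr rfl fun b _ => sum_congr rfl fun y _ => ?_
      by_cases hq : ∀ i j k, (a i, b j, y k) ∈ U
      · simp [hq]
      · rw [if_neg hq]
        push Not at hq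
        obtain ⟨i, j, k, hijk⟩ := hq
        refine prod_eq_zero (mem_univ i) (prod_eq_zero (mem_univ j) (prod_eq_zero (mem_univ k) ?_))
        rw [if_neg hijk]
    rw [e1, e2] at h
    exact h
  have h2 : 27 * α ^ 27 * (N : ℝ) ^ 9 ≤ K := by
    have h3 : (3 * α * (N : ℝ) ^ 3) ^ 27 ≤ (U.card : ℝ) ^ 27 := by gcongr
    have h4 := h3.trans h1
    push_cast at h4
    have h5 : (3 : ℝ) ^ 24 * (N : ℝ) ^ 72 * (27 * α ^ 27 * (N : ℝ) ^ 9) ≤
        (3 : ℝ) ^ 24 * (N : ℝ) ^ 72 * K := by
      calc (3 : ℝ) ^ 24 * (N : ℝ) ^ 72 * (27 * α ^ 27 * (N : ℝ) ^ 9)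
          = (3 * α * (N : ℝ) ^ 3) ^ 27 := by ring
        _ ≤ _ := h4
        _ = _ := by ring
    exact le_of_mul_le_mul_left h5 (by positivity)
  -- upper bound for `K`
  have h6 : (K : ℝ) ≤ 189 * (N : ℝ) ^ 8 + 2187 * E * (N : ℝ) ^ 3 := by
    have h := copies_le X hX U
    rw [hA, hB, hY] at h
    have h' : (K : ℝ) ≤ ((3 * N ^ 2 * N ^ 3 * (3 * N) ^ 3 + 3 * N ^ 3 * N ^ 2 * (3 * N) ^ 3 +
      3 * N ^ 3 * N ^ 3 * (3 * N) ^ 2 + 729 * E * (N * N * (3 * N)) : ℕ) : ℝ) := by
      exact_mod_cast h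
    refine h'.trans (le_of_eq ?_)
    push_cast
    ring
  have h7 : α ^ 27 * (N : ℝ) ^ 6 / 162 ≤ E := by
    have h8 : 27 * α ^ 27 * (N : ℝ) ^ 9 ≤ 189 * (N : ℝ) ^ 8 + 2187 * E * (N : ℝ) ^ 3 := h2.trans h6
    have h9 : 189 * (N : ℝ) ^ 8 ≤ 27 / 2 * α ^ 27 * (N : ℝ) ^ 9 := by
      calc 189 * (N : ℝ) ^ 8 = 27 / 2 * 14 * (N : ℝ) ^ 8 := by ring
        _ ≤ 27 / 2 * (α ^ 27 * N) * (N : ℝ) ^ 8 := by gcongr
        _ = _ := by ring
    have h10 : 2187 * (N : ℝ) ^ 3 * (α ^ 27 * (N : ℝ) ^ 6 / 162) ≤ 2187 * (N : ℝ) ^ 3 * E := by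
      calc 2187 * (N : ℝ) ^ 3 * (α ^ 27 * (N : ℝ) ^ 6 / 162)
          = 27 / 2 * α ^ 27 * (N : ℝ) ^ 9 := by ring
        _ ≤ 2187 * E * (N : ℝ) ^ 3 := by linarith
        _ = _ := by ring
    exact le_of_mul_le_mul_left h10 (by positivity)
  -- conclusion
  by_contra hcon
  push Not at hcon
  have hUpos : 0 < (U.card : ℝ) := by
    have : 0 < 3 * α * (N : ℝ) ^ 3 := by positivity
    linarith
  have hUle : (U.card : ℝ) ≤ 3 * (N : ℝ) ^ 3 := by
    have h : U.card ≤ Fintype.card (A × B × Y) := card_le_univ U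
    rw [Fintype.card_prod, Fintype.card_prod, hA, hB, hY] at h
    have : (U.card : ℝ) ≤ ((N * (N * (3 * N)) : ℕ) : ℝ) := by exact_mod_cast h
    refine this.trans (le_of_eq ?_)
    push_cast
    ring
  have h11 : (E : ℝ) = ∑ v ∈ U, ((U.filter (fun u => X v u)).card : ℝ) := by
    have : E = ∑ v ∈ U, (U.filter (fun u => X v u)).card := by
      rw [hE, Finset.card_filter, Finset.sum_product]
      refine sum_congr rfl fun v _ => ?_
      rw [Finset.card_filter]
    rw [this]
    push_cast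
    rfl
  have hUne : U.Nonempty := by
    rw [← card_pos]
    exact_mod_cast hUpos
  have h12 : (E : ℝ) < ∑ v ∈ U, α ^ 27 / 1458 * (U.card : ℝ) := by
    rw [h11]
    exact sum_lt_sum_of_nonempty hUne fun v hv => hcon v hv
  rw [sum_const, nsmul_eq_mul] at h12
  have h13 : (U.card : ℝ) * (α ^ 27 / 1458 * U.card) ≤ α ^ 27 * (N : ℝ) ^ 6 / 162 := by
    calc (U.card : ℝ) * (α ^ 27 / 1458 * U.card) ≤
        (3 * (N : ℝ) ^ 3) * (α ^ 27 / 1458 * (3 * (N : ℝ) ^ 3)) := by gcongr
      _ = _ := by ring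
  linarith

end supersat

section container

variable {A B Y : Type} [Fintype A] [Fintype B] [Fintype Y] [DecidableEq A] [DecidableEq B]
  [DecidableEq Y]

open Classical in
/-- the maps whose graph lies in `U` and has no related pair -/
noncomputable def fam (X : A × B × Y → A × B × Y → Prop) (U : Finset (A × B × Y)) :
    Finset (A × B → Y) :=
  univ.filter (fun g => (∀ p : A × B, (p.1, p.2, g p) ∈ U) ∧
    ∀ p p' : A × B, ¬ X (p.1, p.2, g p) (p'.1, p'.2, g p'))

lemma mem_fam {X : A × B × Y → A × B × Y → Prop} {U : Finset (A × B × Y)} {g : A × B → Y} :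
    g ∈ fam X U ↔ (∀ p : A × B, (p.1, p.2, g p) ∈ U) ∧
      ∀ p p' : A × B, ¬ X (p.1, p.2, g p) (p'.1, p'.2, g p') := by
  simp [fam]

lemma prod_le_of_sum_le {ι : Type} [Fintype ι] [Nonempty ι] (x : ι → ℝ) (hx : ∀ i, 0 ≤ x i)
    (R : ℝ) (hR : 0 < R) (h : ∑ i, x i ≤ R) :
    ∏ i, x i ≤ (R / Fintype.card ι) ^ Fintype.card ι := by
  set n := Fintype.card ι with hn
  have hn0 : (0 : ℝ) < n := by
    rw [hn]; exact_mod_cast Fintype.card_pos
  set c : ℝ := R / n with hc
  have hc0 : 0 < c := by positivity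
  have h1 : ∏ i, (x i / c) ≤ 1 := by
    calc ∏ i, (x i / c) ≤ ∏ i, Real.exp (x i / c - 1) := by
          refine prod_le_prod (fun i _ => by have := hx i; positivity) fun i _ => ?_
          have := Real.add_one_le_exp (x i / c - 1)
          linarith
      _ = Real.exp (∑ i, (x i / c - 1)) := (Real.exp_sum _ _).symm
      _ ≤ Real.exp 0 := by
          apply Real.exp_le_exp.2
          rw [sum_sub_distrib, ← sum_div]
          simp only [sum_const, card_univ, nsmul_eq_mul, mul_one]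
          have h2 : (∑ i, x i) / c ≤ n := by
            rw [div_le_iff₀ hc0, hc]
            calc ∑ i, x i ≤ R := h
              _ = n * (R / n) := by field_simp
          linarith
      _ = 1 := Real.exp_zero
  rw [prod_div_distrib, prod_const, card_univ, ← hn, div_le_one (by positivity)] at h1
  exact h1

theorem fam_base [Nonempty (A × B)] (X : A × B × Y → A × B × Y → Prop) (U : Finset (A × B × Y))
    (R : ℝ) (hR : 0 < R) (hU : (U.card : ℝ) ≤ R) :
    ((fam X U).card : ℝ) ≤ (R / Fintype.card (A × B)) ^ Fintype.card (A × B) := by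
  classical
  set Up : A × B → Finset Y := fun p => univ.filter (fun y => (p.1, p.2, y) ∈ U) with hUp
  have h1 : fam X U ⊆ Fintype.piFinset Up := by
    intro g hg
    rw [mem_fam] at hg
    rw [Fintype.mem_piFinset]
    intro p
    simp [hUp, hg.1 p]
  have h2 : ((fam X U).card : ℝ) ≤ ∏ p, ((Up p).card : ℝ) := by
    have := card_le_card h1
    rw [Fintype.card_piFinset] at this
    exact_mod_cast this
  refine h2.trans (prod_le_of_sum_le _ (fun p => Nat.cast_nonneg _) R hR ?_)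
  refine le_trans ?_ hU
  have h3 : ∑ p, (Up p).card ≤ U.card := by
    rw [← card_sigma]
    refine card_le_card_of_injOn (fun q => (q.1.1, q.1.2, q.2)) ?_ ?_
    · rintro ⟨p, y⟩ h
      simpa [hUp] using h
    · rintro ⟨⟨a, b⟩, y⟩ _ ⟨⟨a', b'⟩, y'⟩ _ h
      simp only [Prod.mk.injEq] at h
      obtain ⟨rfl, rfl, rfl⟩ := h
      rfl
  exact_mod_cast h3

open Classical in
/-- The container bound. -/
theorem container (X : A × B × Y → A × B × Y → Prop) (R K β : ℝ) (hβ : 0 < β) (hβ1 : β ≤ 1)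
    (hdeg : ∀ U : Finset (A × B × Y), R < U.card → ∃ v ∈ U,
      β * (U.card : ℝ) ≤ ((U.filter (fun u => X v u)).card : ℝ))
    (hK : 0 ≤ K) (hbase : ∀ U : Finset (A × B × Y), (U.card : ℝ) ≤ R → ((fam X U).card : ℝ) ≤ K)
    (hR : 0 < R) :
    ∀ (n q : ℕ) (U : Finset (A × B × Y)), U.card = n → (U.card : ℝ) * (1 - β) ^ q ≤ R →
      ((fam X U).card : ℝ) ≤ ((U.card : ℝ) + 1) ^ q * K := by
  intro n
  induction n using Nat.strong_induction_on with
  | _ n ih =>
    intro q U hUn hq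
    by_cases hUR : (U.card : ℝ) ≤ R
    · calc ((fam X U).card : ℝ) ≤ K := hbase U hUR
        _ = 1 * K := (one_mul K).symm
        _ ≤ ((U.card : ℝ) + 1) ^ q * K := by
            gcongr
            exact one_le_pow₀ (by have : (0 : ℝ) ≤ U.card := Nat.cast_nonneg _; linarith)
    · push Not at hUR
      rcases q with _ | q
      · exfalso
        rw [pow_zero, mul_one] at hq
        linarith
      obtain ⟨v, hv, hdv⟩ := hdeg U hUR
      have hU0 : (0 : ℝ) < U.card := hR.trans hUR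
      set W := U.filter (fun u => X v u) with hW
      have hWpos : 0 < W.card := by
        have : (0 : ℝ) < W.card := lt_of_lt_of_le (by positivity) hdv
        exact_mod_cast this
      set U1 := U.erase v with hU1
      set U2 := U \ W with hU2
      have hc1 : U1.card = U.card - 1 := card_erase_of_mem hv
      have hc2 : U2.card = U.card - W.card := card_sdiff_of_subset (filter_subset _ _)
      have hWle : W.card ≤ U.card := card_le_card (filter_subset _ _)
      have hU0' : 0 < U.card := by exact_mod_cast hU0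
      have hsub : fam X U ⊆ fam X U1 ∪ fam X U2 := by
        intro g hg
        rw [mem_fam] at hg
        rw [mem_union, mem_fam, mem_fam]
        by_cases hvg : ∃ p : A × B, (p.1, p.2, g p) = v
        · right
          obtain ⟨p, hp⟩ := hvg
          refine ⟨fun p' => ?_, hg.2⟩
          rw [hU2, mem_sdiff]
          refine ⟨hg.1 p', fun h => ?_⟩
          rw [hW, mem_filter] at h
          have := hg.2 p p'
          rw [hp] at this
          exact this h.2
        · left
          push Not at hvg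
          refine ⟨fun p' => ?_, hg.2⟩
          rw [hU1, mem_erase]
          exact ⟨hvg p', hg.1 p'⟩
      have hU1r : (U1.card : ℝ) = U.card - 1 := by
        rw [hc1, Nat.cast_sub (by omega)]; simp
      have hU2r : (U2.card : ℝ) = U.card - W.card := by
        rw [hc2, Nat.cast_sub hWle]
      have h1 : ((fam X U1).card : ℝ) ≤ ((U1.card : ℝ) + 1) ^ (q + 1) * K := by
        refine ih U1.card (by omega) (q + 1) U1 rfl (le_trans ?_ hq)
        have : 0 ≤ (1 - β) ^ (q + 1) := pow_nonneg (by linarith) _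
        have h3 : (U1.card : ℝ) ≤ U.card := by rw [hU1r]; linarith
        gcongr
      have h2 : ((fam X U2).card : ℝ) ≤ ((U2.card : ℝ) + 1) ^ q * K := by
        refine ih U2.card (by omega) q U2 rfl (le_trans ?_ hq)
        have h3 : (U2.card : ℝ) ≤ U.card * (1 - β) := by rw [hU2r]; nlinarith
        have h4 : 0 ≤ (1 - β) ^ q := pow_nonneg (by linarith) _
        calc (U2.card : ℝ) * (1 - β) ^ q ≤ (U.card * (1 - β)) * (1 - β) ^ q := by gcongr
          _ = _ := by ring
      have h5 : ((U1.card : ℝ) + 1) = U.card := by rw [hU1r]; ring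
      have h6 : ((U2.card : ℝ) + 1) ≤ U.card := by
        rw [hU2r]
        have : (1 : ℝ) ≤ W.card := by exact_mod_cast hWpos
        linarith
      have h7 : (0 : ℝ) ≤ (U2.card : ℝ) + 1 := by positivity
      calc ((fam X U).card : ℝ) ≤ ((fam X U1 ∪ fam X U2).card : ℝ) := by
            exact_mod_cast card_le_card hsub
        _ ≤ (fam X U1).card + (fam X U2).card := by exact_mod_cast card_union_le _ _
        _ ≤ (U.card : ℝ) ^ (q + 1) * K + (U.card : ℝ) ^ q * K := by
            rw [h5] at h1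
            refine add_le_add h1 (h2.trans ?_)
            gcongr
        _ = (U.card : ℝ) ^ q * ((U.card : ℝ) + 1) * K := by ring
        _ ≤ ((U.card : ℝ) + 1) ^ q * ((U.card : ℝ) + 1) * K := by
            gcongr
            linarith
        _ = _ := by ring

/-- The final bound for one relation. -/
theorem fam_le (N : ℕ) (hA : Fintype.card A = N) (hB : Fintype.card B = N)
    (hY : Fintype.card Y = 3 * N) (X : A × B × Y → A × B × Y → Prop) (hX : Dense333 X)
    (α : ℝ) (hα : 0 < α) (hα1 : α ≤ 1) (hN : 14 ≤ α ^ 27 * N) (q : ℕ)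
    (hq : (1 - α ^ 27 / 1458) ^ q ≤ α) (U : Finset (A × B × Y)) :
    ((fam X U).card : ℝ) ≤ (3 * (N : ℝ) ^ 3 + 1) ^ q * (3 * α * N) ^ (N ^ 2) := by
  classical
  have hN0 : (0 : ℝ) < N := by
    by_contra h
    have : (N : ℝ) = 0 := le_antisymm (not_lt.1 h) (Nat.cast_nonneg _)
    rw [this] at hN
    norm_num at hN
  have hN0' : 0 < N := by exact_mod_cast hN0
  have hneA : Nonempty A := Fintype.card_pos_iff.1 (by omega)
  have hneB : Nonempty B := Fintype.card_pos_iff.1 (by omega)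
  have hle1 : α ^ 27 ≤ 1 := pow_le_one₀ hα.le hα1
  set R : ℝ := 3 * α * (N : ℝ) ^ 3 with hR
  have hR0 : 0 < R := by positivity
  have hUle : ∀ U : Finset (A × B × Y), (U.card : ℝ) ≤ 3 * (N : ℝ) ^ 3 := by
    intro U
    have h : U.card ≤ Fintype.card (A × B × Y) := card_le_univ U
    rw [Fintype.card_prod, Fintype.card_prod, hA, hB, hY] at h
    have : (U.card : ℝ) ≤ ((N * (N * (3 * N)) : ℕ) : ℝ) := by exact_mod_cast h
    refine this.trans (le_of_eq ?_)
    push_cast
    ring
  have hcard : Fintype.card (A × B) = N ^ 2 := by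
    rw [Fintype.card_prod, hA, hB]; ring
  have hbase : ∀ U : Finset (A × B × Y), (U.card : ℝ) ≤ R →
      ((fam X U).card : ℝ) ≤ (3 * α * N) ^ (N ^ 2) := by
    intro U hU
    have h := fam_base X U R hR0 hU
    rw [hcard] at h
    have e : R / ((N ^ 2 : ℕ) : ℝ) = 3 * α * N := by
      rw [hR]
      push_cast
      field_simp
    rw [e] at h
    exact h
  have hmain := container X R ((3 * α * N) ^ (N ^ 2)) (α ^ 27 / 1458) (by positivity) (by linarith)
    (fun U hU => dense_vertex N hA hB hY X hX α hα hN U hU.le) (by positivity) hbase hR0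
    U.card q U rfl (by
      calc (U.card : ℝ) * (1 - α ^ 27 / 1458) ^ q ≤ (3 * (N : ℝ) ^ 3) * α := by
            gcongr
            · exact pow_nonneg (by linarith) _
            · exact hUle U
        _ = R := by rw [hR]; ring)
  refine hmain.trans ?_
  gcongr
  exact hUle U

end container

end Pool.Agent.H129.CX.Count
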