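import Mathlib
import Pool.Agent.H129.CX.Count
import Pool.Agent.H129.G.R_seed8.Helper325.BorsukUlam

/-!
Crossing pairs of triangles in `ℝ⁴` in terms of the orientations of 5-tuples of points, and the van
Kampen-Flores theorem for `K_{3,3,3}`.
-/

set_option autoImplicit false

namespace Pool.Agent.H129.CX.Geom

open Finset Matrix

variable {V : Type}

/-- homogeneous coordinates of the point `v` -/
def hom (x : V × Fin 4 → ℝ) (v : V) : Fin 5 → ℝ := Fin.cons 1 (fun k => x (v, k))

/-- the orientation determinant of five points -/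
noncomputable def D (x : V × Fin 4 → ℝ) (v : Fin 5 → V) : ℝ :=
  (Matrix.of fun i j => hom x (v i) j).det

/-- the coefficients of the affine dependence of six points -/
noncomputable def lam (x : V × Fin 4 → ℝ) (w : Fin 6 → V) (i : Fin 6) : ℝ :=
  (-1) ^ (i : ℕ) * D x (fun k => w (i.succAbove k))

theorem lam_dep (x : V × Fin 4 → ℝ) (w : Fin 6 → V) (c : Fin 5) :
    ∑ i, lam x w i * hom x (w i) c = 0 := by
  set M : Matrix (Fin 6) (Fin 6) ℝ := Matrix.of fun i j =>
    Fin.cases (hom x (w i) c) (fun k => hom x (w i) k) j with hM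
  have h0 : M.det = 0 := by
    refine Matrix.det_zero_of_column_eq (i := 0) (j := c.succ) (Fin.succ_ne_zero c).symm ?_
    intro i
    simp [hM]
  rw [Matrix.det_succ_column_zero] at h0
  rw [← h0]
  refine sum_congr rfl fun i _ => ?_
  have e1 : M i 0 = hom x (w i) c := by simp [hM]
  have e2 : M.submatrix i.succAbove Fin.succ =
      Matrix.of fun k j => hom x (w (i.succAbove k)) j := by
    ext k j
    simp [hM]
  rw [e1, e2]
  unfold lam D
  ring

/-- the sign of `lam` -/
def lamS (s : (Fin 5 → V) → SignType) (w : Fin 6 → V) (i : Fin 6) : SignType :=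
  (-1) ^ (i : ℕ) * s (fun k => w (i.succAbove k))

/-- the orientation signs of the points `x` -/
noncomputable def sg (x : V × Fin 4 → ℝ) (v : Fin 5 → V) : SignType := SignType.sign (D x v)

theorem lamS_eq (x : V × Fin 4 → ℝ) (w : Fin 6 → V) (i : Fin 6) :
    lamS (sg x) w i = SignType.sign (lam x w i) := by
  unfold lamS lam sg
  rw [sign_mul]
  congr 1
  rcases Nat.even_or_odd (i : ℕ) with h | h
  · simp [h.neg_one_pow]
  · simp [h.neg_one_pow]

/-- the triangles `w 0, w 1, w 2` and `w 3, w 4, w 5` cross -/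
def CrossS (s : (Fin 5 → V) → SignType) (w : Fin 6 → V) : Prop :=
  ∃ e : SignType, e ≠ 0 ∧ lamS s w 0 = e ∧ lamS s w 1 = e ∧ lamS s w 2 = e ∧
    lamS s w 3 = -e ∧ lamS s w 4 = -e ∧ lamS s w 5 = -e

theorem cross_inter (x : V × Fin 4 → ℝ) (w : Fin 6 → V) (h : CrossS (sg x) w) :
    ∃ a b : Fin 3 → ℝ, (∀ i, 0 ≤ a i) ∧ (∀ i, 0 ≤ b i) ∧ ∑ i, a i = 1 ∧ ∑ i, b i = 1 ∧
      ∀ k : Fin 4, a 0 * x (w 0, k) + a 1 * x (w 1, k) + a 2 * x (w 2, k) =
        b 0 * x (w 3, k) + b 1 * x (w 4, k) + b 2 * x (w 5, k) := by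
  obtain ⟨e, he, h0, h1, h2, h3, h4, h5⟩ := h
  rw [lamS_eq] at h0 h1 h2 h3 h4 h5
  -- it suffices to treat positive coefficients
  have key : ∀ l : Fin 6 → ℝ, (∀ c, ∑ i, l i * hom x (w i) c = 0) → 0 < l 0 → 0 < l 1 → 0 < l 2 →
      l 3 < 0 → l 4 < 0 → l 5 < 0 → ∃ a b : Fin 3 → ℝ, (∀ i, 0 ≤ a i) ∧ (∀ i, 0 ≤ b i) ∧
      ∑ i, a i = 1 ∧ ∑ i, b i = 1 ∧
      ∀ k : Fin 4, a 0 * x (w 0, k) + a 1 * x (w 1, k) + a 2 * x (w 2, k) =
        b 0 * x (w 3, k) + b 1 * x (w 4, k) + b 2 * x (w 5, k) := by
    intro l hl p0 p1 p2 p3 p4 p5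
    have hs := hl 0
    simp only [Fin.sum_univ_six, hom, Fin.cons_zero, mul_one] at hs
    have hs' : l 0 + l 1 + l 2 = -(l 3 + l 4 + l 5) := by linarith
    set L := l 0 + l 1 + l 2 with hL
    have hLpos : 0 < L := by positivity
    refine ⟨![l 0 / L, l 1 / L, l 2 / L], ![-l 3 / L, -l 4 / L, -l 5 / L], ?_, ?_, ?_, ?_, ?_⟩
    · intro i
      fin_cases i <;> simp <;> positivity
    · intro i
      fin_cases i <;> simp only [Fin.zero_eta, Fin.mk_one, Fin.reduceFinMk, cons_val_zero, cons_val_one, Matrix.cons_val] <;>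
        apply div_nonneg _ hLpos.le <;> linarith
    · simp only [Fin.sum_univ_three, cons_val_zero, cons_val_one, Matrix.cons_val]
      rw [← add_div, ← add_div, div_self hLpos.ne']
    · simp only [Fin.sum_univ_three, cons_val_zero, cons_val_one, Matrix.cons_val]
      rw [← add_div, ← add_div, div_eq_one_iff_eq hLpos.ne']
      linarith
    · intro k
      have hk := hl k.succ
      simp only [hom, Fin.cons_succ, Fin.sum_univ_six] at hk
      simp only [cons_val_zero, cons_val_one, Matrix.cons_val]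
      field_simp
      linarith
  cases e with
  | zero => exact absurd rfl he
  | pos =>
    refine key (lam x w) (lam_dep x w) ?_ ?_ ?_ ?_ ?_ ?_
    · exact sign_eq_one_iff.1 h0
    · exact sign_eq_one_iff.1 h1
    · exact sign_eq_one_iff.1 h2
    · exact sign_eq_neg_one_iff.1 h3
    · exact sign_eq_neg_one_iff.1 h4
    · exact sign_eq_neg_one_iff.1 h5
  | neg =>
    refine key (fun i => - lam x w i) ?_ ?_ ?_ ?_ ?_ ?_ ?_
    · intro c
      simp only [neg_mul, sum_neg_distrib, lam_dep x w c, neg_zero]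
    · have := sign_eq_neg_one_iff.1 h0; linarith
    · have := sign_eq_neg_one_iff.1 h1; linarith
    · have := sign_eq_neg_one_iff.1 h2; linarith
    · have := sign_eq_one_iff.1 h3; linarith
    · have := sign_eq_one_iff.1 h4; linarith
    · have := sign_eq_one_iff.1 h5; linarith

/-! ### The van Kampen-Flores theorem for `K_{3,3,3}` -/

/-- the median of three numbers -/
noncomputable def med (v : Fin 3 → ℝ) : ℝ :=
  v 0 + v 1 + v 2 - max (v 0) (max (v 1) (v 2)) - min (v 0) (min (v 1) (v 2))

lemma med_neg (v : Fin 3 → ℝ) : med (fun i => - v i) = - med v := by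
  unfold med
  rw [max_neg_neg, max_neg_neg, min_neg_neg, min_neg_neg]
  ring

/-- the three linear forms -/
noncomputable def l3 (a b : ℝ) : Fin 3 → ℝ := ![a, b, -a - b]

/-- an odd map from the plane to the cone over the hexagon -/
noncomputable def hx (a b : ℝ) (i : Fin 3) : ℝ := l3 a b i - med (l3 a b)

lemma hx_neg (a b : ℝ) (i : Fin 3) : hx (-a) (-b) i = - hx a b i := by
  have e : l3 (-a) (-b) = fun i => - l3 a b i := by
    funext j
    fin_cases j <;> simp [l3]
    ring
  unfold hx
  rw [e, med_neg]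
  ring

lemma hx_cont (i : Fin 3) : Continuous (fun z : ℝ × ℝ => hx z.1 z.2 i) := by
  have h : ∀ j, Continuous (fun z : ℝ × ℝ => l3 z.1 z.2 j) := by
    intro j
    fin_cases j <;> simp [l3] <;> fun_prop
  unfold hx med
  have h0 := h 0
  have h1 := h 1
  have h2 := h 2
  have hi := h i
  fun_prop

lemma fin3_third (i j k t : Fin 3) (h1 : i ≠ j) (h2 : j ≠ k) (h3 : i ≠ k) (h4 : t ≠ j)
    (h5 : t ≠ i) : t = k := by
  apply Fin.ext
  have := Fin.val_ne_of_ne h1
  have := Fin.val_ne_of_ne h2
  have := Fin.val_ne_of_ne h3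
  have := Fin.val_ne_of_ne h4
  have := Fin.val_ne_of_ne h5
  omega

/-- at most one coordinate of `hx` is positive and at most one is negative -/
lemma hx_sign (a b : ℝ) : ∃ i j : Fin 3, i ≠ j ∧ 0 ≤ hx a b i ∧ hx a b j ≤ 0 ∧
    ∀ k, k ≠ i → k ≠ j → hx a b k = 0 := by
  -- order the three values
  have key : ∀ v : Fin 3 → ℝ, ∃ i j : Fin 3, i ≠ j ∧ 0 ≤ v i - med v ∧ v j - med v ≤ 0 ∧
      ∀ k, k ≠ i → k ≠ j → v k - med v = 0 := by
    intro v
    have main : ∀ i j k : Fin 3, i ≠ j → j ≠ k → i ≠ k → v i ≤ v k → v k ≤ v j →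
        max (v 0) (max (v 1) (v 2)) = v j → min (v 0) (min (v 1) (v 2)) = v i →
        v 0 + v 1 + v 2 = v i + v j + v k → ∃ i j : Fin 3, i ≠ j ∧ 0 ≤ v i - med v ∧
        v j - med v ≤ 0 ∧ ∀ k, k ≠ i → k ≠ j → v k - med v = 0 := by
      intro i j k hij hjk hik h1 h2 hmax hmin hsum
      have hm : med v = v k := by
        unfold med
        rw [hmax, hmin, hsum]
        ring
      refine ⟨j, i, hij.symm, by rw [hm]; linarith, by rw [hm]; linarith, ?_⟩
      intro t htj hti
      rw [fin3_third i j k t hij hjk hik htj hti, hm, sub_self]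
    rcases le_total (v 0) (v 1) with h01 | h01 <;> rcases le_total (v 1) (v 2) with h12 | h12 <;>
      rcases le_total (v 0) (v 2) with h02 | h02
    · exact main 0 2 1 (by decide) (by decide) (by decide) h01 h12
        (by rw [max_eq_right h12, max_eq_right h02]) (by rw [min_eq_left h12, min_eq_left h01])
        (by ring)
    · exact main 0 2 1 (by decide) (by decide) (by decide) h01 h12
        (by rw [max_eq_right h12, max_eq_right (h01.trans h12)])
        (by rw [min_eq_left h12, min_eq_left h01]) (by ring)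
    · exact main 0 1 2 (by decide) (by decide) (by decide) h02 h12
        (by rw [max_eq_left h12, max_eq_right h01]) (by rw [min_eq_right h12, min_eq_left h02])
        (by ring)
    · exact main 2 1 0 (by decide) (by decide) (by decide) h02 h01
        (by rw [max_eq_left h12, max_eq_right h01]) (by rw [min_eq_right h12, min_eq_right h02])
        (by ring)
    · exact main 1 2 0 (by decide) (by decide) (by decide) h01 h02
        (by rw [max_eq_right h12, max_eq_right h02]) (by rw [min_eq_left h12, min_eq_right h01])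
        (by ring)
    · exact main 1 0 2 (by decide) (by decide) (by decide) h12 h02
        (by rw [max_eq_right h12, max_eq_left h02]) (by rw [min_eq_left h12, min_eq_right h01])
        (by ring)
    · exact main 2 0 1 (by decide) (by decide) (by decide) h12 h01
        (by rw [max_eq_left h12, max_eq_left h01])
        (by rw [min_eq_right h12, min_eq_right (h12.trans h01)]) (by ring)
    · exact main 2 0 1 (by decide) (by decide) (by decide) h12 h01
        (by rw [max_eq_left h12, max_eq_left h01]) (by rw [min_eq_right h12, min_eq_right h02])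
        (by ring)
  exact key (l3 a b)

lemma hx_zero (a b : ℝ) (h : ∀ i, hx a b i = 0) : a = 0 ∧ b = 0 := by
  have h0 := h 0
  have h1 := h 1
  have h2 := h 2
  unfold hx at h0 h1 h2
  simp only [l3, cons_val_zero, cons_val_one, Matrix.cons_val] at h0 h1 h2
  constructor <;> linarith

lemma sum_two (f : Fin 3 → ℝ) (i j : Fin 3) (hij : i ≠ j) (h : ∀ k, k ≠ i → k ≠ j → f k = 0) :
    ∑ t, f t = f i + f j := by
  rw [← Finset.sum_pair hij]
  symm
  refine sum_subset (subset_univ _) fun t _ ht => ?_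
  simp only [mem_insert, mem_singleton, not_or] at ht
  exact h t ht.1 ht.2

/-- **Van Kampen-Flores for `K_{3,3,3}` in `ℝ⁴`**, for points in general position. -/
theorem vkf (x : V × Fin 4 → ℝ) (hgen : ∀ v : Fin 5 → V, Function.Injective v → D x v ≠ 0)
    (a b y : Fin 3 → V) (ha : Function.Injective a) (hb : Function.Injective b)
    (hy : Function.Injective y) (hab : ∀ i j, a i ≠ b j) (hay : ∀ i j, a i ≠ y j)
    (hby : ∀ i j, b i ≠ y j) :
    ∃ i i' j j' k k', i ≠ i' ∧ j ≠ j' ∧ k ≠ k' ∧
      CrossS (sg x) ![a i, b j, y k, a i', b j', y k'] := by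
  classical
  let Φ : (Fin 6 → ℝ) → (Fin 5 → ℝ) := fun z c =>
    ∑ i, hx (z 0) (z 1) i * hom x (a i) c + ∑ i, hx (z 2) (z 3) i * hom x (b i) c +
      ∑ i, hx (z 4) (z 5) i * hom x (y i) c
  have hcont : Continuous Φ := by
    have h1 : ∀ (s t : Fin 6) (i : Fin 3), Continuous (fun z : Fin 6 → ℝ => hx (z s) (z t) i) := by
      intro s t i
      have h2 : Continuous (fun z : Fin 6 → ℝ => (z s, z t)) := by fun_prop
      exact (hx_cont i).comp h2
    refine continuous_pi fun c => ?_
    refine ((continuous_finsetSum _ fun i _ => ?_).add (continuous_finsetSum _ fun i _ => ?_)).add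
      (continuous_finsetSum _ fun i _ => ?_)
    · exact (h1 0 1 i).mul continuous_const
    · exact (h1 2 3 i).mul continuous_const
    · exact (h1 4 5 i).mul continuous_const
  have hodd : ∀ z, Φ (-z) = - Φ z := by
    intro z
    funext c
    simp only [Φ, Pi.neg_apply, hx_neg, neg_mul, sum_neg_distrib]
    ring
  obtain ⟨z, hz, hΦ⟩ := Pool.Agent.Helper325.BorsukUlam.borsuk_ulam 5 Φ hcont hodd
  obtain ⟨i, i', hi, hi1, hi2, hi3⟩ := hx_sign (z 0) (z 1)
  obtain ⟨j, j', hj, hj1, hj2, hj3⟩ := hx_sign (z 2) (z 3)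
  obtain ⟨k, k', hk, hk1, hk2, hk3⟩ := hx_sign (z 4) (z 5)
  refine ⟨i, i', j, j', k, k', hi, hj, hk, ?_⟩
  set w : Fin 6 → V := ![a i, b j, y k, a i', b j', y k'] with hw
  set μ : Fin 6 → ℝ := ![hx (z 0) (z 1) i, hx (z 2) (z 3) j, hx (z 4) (z 5) k,
    hx (z 0) (z 1) i', hx (z 2) (z 3) j', hx (z 4) (z 5) k'] with hμ
  have hdep : ∀ c, ∑ t, μ t * hom x (w t) c = 0 := by
    intro c
    have h := congrFun hΦ c
    simp only [Φ, Pi.zero_apply] at h
    rw [sum_two _ i i' hi (fun t h1 h2 => by rw [hi3 t h1 h2, zero_mul]),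
      sum_two _ j j' hj (fun t h1 h2 => by rw [hj3 t h1 h2, zero_mul]),
      sum_two _ k k' hk (fun t h1 h2 => by rw [hk3 t h1 h2, zero_mul])] at h
    rw [Fin.sum_univ_six]
    simp only [hμ, hw, cons_val_zero, cons_val_one, Matrix.cons_val]
    linarith
  have hne : ∃ t, μ t ≠ 0 := by
    by_contra hcon
    push Not at hcon
    have hz0 : z 0 = 0 ∧ z 1 = 0 := by
      refine hx_zero _ _ fun t => ?_
      by_cases h1 : t = i
      · rw [h1]; simpa [hμ] using hcon 0
      · by_cases h2 : t = i'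
        · rw [h2]; simpa [hμ] using hcon 3
        · exact hi3 t h1 h2
    have hz2 : z 2 = 0 ∧ z 3 = 0 := by
      refine hx_zero _ _ fun t => ?_
      by_cases h1 : t = j
      · rw [h1]; simpa [hμ] using hcon 1
      · by_cases h2 : t = j'
        · rw [h2]; simpa [hμ] using hcon 4
        · exact hj3 t h1 h2
    have hz4 : z 4 = 0 ∧ z 5 = 0 := by
      refine hx_zero _ _ fun t => ?_
      by_cases h1 : t = k
      · rw [h1]; simpa [hμ] using hcon 2
      · by_cases h2 : t = k'
        · rw [h2]; simpa [hμ] using hcon 5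
        · exact hk3 t h1 h2
    have hsum : ∑ t, |z t| = 1 := hz
    rw [Fin.sum_univ_six, hz0.1, hz0.2, hz2.1, hz2.2, hz4.1, hz4.2] at hsum
    norm_num at hsum
  have hwinj : Function.Injective w := by
    have hii : a i ≠ a i' := fun h => hi (ha h)
    have hjj : b j ≠ b j' := fun h => hj (hb h)
    have hkk : y k ≠ y k' := fun h => hk (hy h)
    intro s t hst
    have := hab; have := hay; have := hby
    fin_cases s <;> fin_cases t <;> simp [hw] at hst ⊢ <;>
      first
      | exact hii hst | exact hii hst.symm | exact hjj hst | exact hjj hst.symm | exact hkk hst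
      | exact hkk hst.symm | exact hab _ _ hst | exact hab _ _ hst.symm | exact hay _ _ hst
      | exact hay _ _ hst.symm | exact hby _ _ hst | exact hby _ _ hst.symm
  have hlam : ∀ t, lam x w t ≠ 0 := by
    intro t
    unfold lam
    refine mul_ne_zero (pow_ne_zero _ (by norm_num)) (hgen _ ?_)
    exact hwinj.comp Fin.succAbove_right_injective
  -- the dependence is unique up to a factor
  set τ := μ 0 / lam x w 0 with hτ
  have hprop : ∀ t, μ t = τ * lam x w t := by
    have hν : ∀ c, ∑ t : Fin 5, (μ t.succ - τ * lam x w t.succ) * hom x (w t.succ) c = 0 := by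
      intro c
      have h1 := hdep c
      have h2 := lam_dep x w c
      rw [Fin.sum_univ_succ] at h1 h2
      have h3 : μ 0 = τ * lam x w 0 := by rw [hτ, div_mul_cancel₀ _ (hlam 0)]
      simp only [sub_mul, sum_sub_distrib]
      have h4 : ∑ t : Fin 5, τ * lam x w t.succ * hom x (w t.succ) c =
          τ * ∑ t : Fin 5, lam x w t.succ * hom x (w t.succ) c := by
        rw [mul_sum]
        exact sum_congr rfl fun t _ => by ring
      rw [h4]
      have h5 : ∑ t : Fin 5, lam x w t.succ * hom x (w t.succ) c = - (lam x w 0 * hom x (w 0) c) := by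
        linarith
      rw [h5]
      have h6 : ∑ t : Fin 5, μ t.succ * hom x (w t.succ) c = - (μ 0 * hom x (w 0) c) := by linarith
      rw [h6, h3]
      ring
    have hdet : (Matrix.of fun i j => hom x (w (Fin.succ i)) j : Matrix (Fin 5) (Fin 5) ℝ).det ≠ 0 :=
      hgen (fun i => w i.succ) (hwinj.comp (Fin.succ_injective _))
    have hzero := Matrix.eq_zero_of_vecMul_eq_zero hdet
      (v := fun t : Fin 5 => μ t.succ - τ * lam x w t.succ) (by
        funext c
        simp only [Matrix.vecMul, dotProduct, Matrix.of_apply, Pi.zero_apply]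
        exact hν c)
    intro t
    rcases Fin.eq_zero_or_eq_succ t with h | ⟨s, h⟩
    · rw [h, hτ, div_mul_cancel₀ _ (hlam 0)]
    · rw [h]
      have := congrFun hzero s
      simp only [Pi.zero_apply] at this
      linarith
  have hτ0 : τ ≠ 0 := by
    intro h
    obtain ⟨t, ht⟩ := hne
    apply ht
    rw [hprop t, h, zero_mul]
  have hμne : ∀ t, μ t ≠ 0 := fun t => by
    rw [hprop t]; exact mul_ne_zero hτ0 (hlam t)
  have m0 : 0 < μ 0 := lt_of_le_of_ne (by simpa [hμ] using hi1) (hμne 0).symm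
  have m1 : 0 < μ 1 := lt_of_le_of_ne (by simpa [hμ] using hj1) (hμne 1).symm
  have m2 : 0 < μ 2 := lt_of_le_of_ne (by simpa [hμ] using hk1) (hμne 2).symm
  have m3 : μ 3 < 0 := lt_of_le_of_ne (by simpa [hμ] using hi2) (hμne 3)
  have m4 : μ 4 < 0 := lt_of_le_of_ne (by simpa [hμ] using hj2) (hμne 4)
  have m5 : μ 5 < 0 := lt_of_le_of_ne (by simpa [hμ] using hk2) (hμne 5)
  rw [hprop] at m0 m1 m2 m3 m4 m5
  rcases lt_or_gt_of_ne hτ0 with hneg | hpos
  · refine ⟨-1, by decide, ?_, ?_, ?_, ?_, ?_, ?_⟩ <;> rw [lamS_eq]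
    · exact sign_neg (by nlinarith)
    · exact sign_neg (by nlinarith)
    · exact sign_neg (by nlinarith)
    · rw [neg_neg]; exact sign_pos (by nlinarith)
    · rw [neg_neg]; exact sign_pos (by nlinarith)
    · rw [neg_neg]; exact sign_pos (by nlinarith)
  · refine ⟨1, by decide, ?_, ?_, ?_, ?_, ?_, ?_⟩ <;> rw [lamS_eq]
    · exact sign_pos (by nlinarith)
    · exact sign_pos (by nlinarith)
    · exact sign_pos (by nlinarith)
    · exact sign_neg (by nlinarith)
    · exact sign_neg (by nlinarith)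
    · exact sign_neg (by nlinarith)

end Pool.Agent.H129.CX.Geom
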