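import Mathlib

/-!
The number of proper edge colourings of `K_{N,N}` with `3N` colours is at least `N ^ (N ^ 2)`.
-/

set_option autoImplicit false

namespace Pool.Agent.H129.CX.Proper

open Finset

variable {A B Y : Type} [Fintype A] [Fintype B] [Fintype Y] [DecidableEq A] [DecidableEq B]
  [DecidableEq Y]

/-- cells in the same row or in the same column have different colours -/
def ProperOn (S : Finset (A × B)) (g : A × B → Y) : Prop :=
  ∀ p ∈ S, ∀ p' ∈ S, p ≠ p' → (p.1 = p'.1 ∨ p.2 = p'.2) → g p ≠ g p'

/-- a proper colouring of all cells -/
def Proper (g : A × B → Y) : Prop := ∀ p p', p ≠ p' → (p.1 = p'.1 ∨ p.2 = p'.2) → g p ≠ g p'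

open Classical in
theorem count_on (N : ℕ) (hA : Fintype.card A = N) (hB : Fintype.card B = N)
    (hY : Fintype.card Y = 3 * N) (y0 : Y) (S : Finset (A × B)) :
    N ^ S.card ≤ (univ.filter (fun g : A × B → Y => (∀ p, p ∉ S → g p = y0) ∧
      ProperOn S g)).card := by
  induction S using Finset.induction_on with
  | empty =>
    rw [card_empty, pow_zero]
    apply Nat.one_le_iff_ne_zero.2
    rw [← Nat.pos_iff_ne_zero, card_pos]
    exact ⟨fun _ => y0, by simp [ProperOn]⟩
  | insert c S hc ih =>
    set F := univ.filter (fun g : A × B → Y => (∀ p, p ∉ S → g p = y0) ∧ ProperOn S g) with hF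
    set F' := univ.filter (fun g : A × B → Y => (∀ p, p ∉ insert c S → g p = y0) ∧
      ProperOn (insert c S) g) with hF'
    rw [card_insert_of_notMem hc, pow_succ]
    let al : (A × B → Y) → Finset Y := fun g =>
      univ.filter (fun y => ∀ p ∈ S, (p.1 = c.1 ∨ p.2 = c.2) → g p ≠ y)
    have hal : ∀ g, N ≤ (al g).card := by
      intro g
      let Q : Finset (A × B) := (univ.filter (fun p : A × B => p.1 = c.1)) ∪
        (univ.filter (fun p : A × B => p.2 = c.2))
      have hQ : Q.card ≤ 2 * N := by
        have h1 : (univ.filter (fun p : A × B => p.1 = c.1)).card ≤ N := by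
          rw [← hB, ← card_univ]
          refine card_le_card_of_injOn (fun p => p.2) (fun _ _ => by simp) ?_
          intro p hp p' hp' h
          simp only [coe_filter, mem_univ, true_and, Set.mem_ofPred_eq] at hp hp'
          exact Prod.ext (hp.trans hp'.symm) h
        have h2 : (univ.filter (fun p : A × B => p.2 = c.2)).card ≤ N := by
          rw [← hA, ← card_univ]
          refine card_le_card_of_injOn (fun p => p.1) (fun _ _ => by simp) ?_
          intro p hp p' hp' h
          simp only [coe_filter, mem_univ, true_and, Set.mem_ofPred_eq] at hp hp'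
          exact Prod.ext h (hp.trans hp'.symm)
        calc Q.card ≤ _ := card_union_le _ _
          _ ≤ 2 * N := by omega
      have h3 : univ \ (Q.image g) ⊆ al g := by
        intro y hy
        simp only [mem_sdiff, mem_univ, true_and, mem_image, not_exists, not_and] at hy
        simp only [al, mem_filter, mem_univ, true_and]
        intro p _ hpc
        apply hy p
        simp only [Q, mem_union, mem_filter, mem_univ, true_and]
        exact hpc
      have h4 : (univ \ (Q.image g)).card = 3 * N - (Q.image g).card := by
        rw [card_sdiff_of_subset (subset_univ _), card_univ, hY]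
      have h5 : (Q.image g).card ≤ Q.card := card_image_le
      have h6 := card_le_card h3
      omega
    have h1 : (F.sigma al).card ≤ F'.card := by
      refine card_le_card_of_injOn (fun q => Function.update q.1 c q.2) ?_ ?_
      · rintro ⟨g, y⟩ hq
        simp only [coe_sigma, Set.mem_sigma_iff, mem_coe, hF, al, mem_filter, mem_univ,
          true_and] at hq
        obtain ⟨⟨hg1, hg2⟩, hy⟩ := hq
        simp only [hF', coe_filter, mem_univ, true_and, Set.mem_ofPred_eq]
        refine ⟨?_, ?_⟩
        · intro p hp
          rw [mem_insert, not_or] at hp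
          rw [Function.update_of_ne hp.1]
          exact hg1 p hp.2
        · intro p hp p' hp' hne hrc
          rw [mem_insert] at hp hp'
          rcases hp with rfl | hp <;> rcases hp' with rfl | hp'
          · exact absurd rfl hne
          · rw [Function.update_self, Function.update_of_ne (Ne.symm hne)]
            exact (hy p' hp' (by rcases hrc with h | h <;> simp [h])).symm
          · rw [Function.update_self, Function.update_of_ne hne]
            exact hy p hp hrc
          · have e1 : p ≠ c := fun h => hc (h ▸ hp)
            have e2 : p' ≠ c := fun h => hc (h ▸ hp')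
            rw [Function.update_of_ne e1, Function.update_of_ne e2]
            exact hg2 p hp p' hp' hne hrc
      · rintro ⟨g, y⟩ hq ⟨g', y'⟩ hq' h
        simp only [coe_sigma, Set.mem_sigma_iff, mem_coe, hF, mem_filter, mem_univ,
          true_and] at hq hq'
        simp only at h
        have e1 : y = y' := by
          have := congrFun h c
          simpa using this
        have e2 : g = g' := by
          funext p
          by_cases hp : p = c
          · rw [hp, hq.1.1 c hc, hq'.1.1 c hc]
          · have := congrFun h p
            rwa [Function.update_of_ne hp, Function.update_of_ne hp] at this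
        subst e1 e2
        rfl
    calc N ^ S.card * N ≤ F.card * N := Nat.mul_le_mul_right _ ih
      _ = ∑ g ∈ F, N := by rw [sum_const, smul_eq_mul]
      _ ≤ ∑ g ∈ F, (al g).card := sum_le_sum fun g _ => hal g
      _ = (F.sigma al).card := (card_sigma _ _).symm
      _ ≤ F'.card := h1

open Classical in
theorem count_proper (N : ℕ) (hN : 0 < N) (hA : Fintype.card A = N) (hB : Fintype.card B = N)
    (hY : Fintype.card Y = 3 * N) :
    N ^ (N ^ 2) ≤ (univ.filter (fun g : A × B → Y => Proper g)).card := by
  have hne : Nonempty Y := Fintype.card_pos_iff.1 (by omega)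
  obtain ⟨y0⟩ := hne
  have h := count_on N hA hB hY y0 (univ : Finset (A × B))
  rw [card_univ, Fintype.card_prod, hA, hB] at h
  have e : N * N = N ^ 2 := by ring
  rw [e] at h
  refine h.trans (card_le_card ?_)
  intro g hg
  simp only [mem_filter, mem_univ, true_and, not_true_eq_false, false_implies, implies_true] at hg ⊢
  intro p p' hne hrc
  exact hg p (mem_univ _) p' (mem_univ _) hne hrc

end Pool.Agent.H129.CX.Proper
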