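import Mathlib
import Pool.Agent.H129.CX.Count
import Pool.Agent.H129.CX.Proper
import Pool.Agent.H129.CX.Geom
import Pool.Agent.H129.G.R_seed8.Helper448.Warren

/-!
There is a proper edge colouring `g` of `K_{N,N}` with `3N` colours such that the triangles
`{a, b, g (a, b)}` cannot be placed in `ℝ⁴` without two vertex disjoint ones of them meeting.
-/

set_option autoImplicit false

namespace Pool.Agent.H129.CX.Exists

open Finset Pool.Agent.H129.CX.Count Pool.Agent.H129.CX.Proper Pool.Agent.H129.CX.Geom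

/-! ### General position -/

section generic

variable {V : Type}

/-- any five different points are affinely independent -/
def Generic (x : V × Fin 4 → ℝ) : Prop := ∀ v : Fin 5 → V, Function.Injective v → D x v ≠ 0

/-- points on the moment curve -/
noncomputable def mom (τ : V → ℝ) (q : V × Fin 4) : ℝ := τ q.1 ^ ((q.2 : ℕ) + 1)

lemma mom_generic (τ : V → ℝ) (hτ : Function.Injective τ) : Generic (mom τ) := by
  intro v hv
  have e : (Matrix.of fun i j => hom (mom τ) (v i) j : Matrix (Fin 5) (Fin 5) ℝ) =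
      Matrix.vandermonde (fun i => τ (v i)) := by
    ext i j
    simp only [Matrix.of_apply, Matrix.vandermonde_apply]
    refine Fin.cases ?_ (fun k => ?_) j
    · simp [hom]
    · simp [hom, mom]
  unfold D
  rw [e, Matrix.det_vandermonde_ne_zero_iff]
  exact hτ.comp hv

/-- the segment from `x` to `m` -/
def seg (x m : V × Fin 4 → ℝ) (t : ℝ) (q : V × Fin 4) : ℝ := (1 - t) * x q + t * m q

open Polynomial in
lemma seg_poly (x m : V × Fin 4 → ℝ) (v : Fin 5 → V) :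
    ∃ P : ℝ[X], ∀ t, P.eval t = D (seg x m t) v := by
  refine ⟨(Matrix.of fun i j => C (hom x (v i) j) * (1 - X) + C (hom m (v i) j) * X :
    Matrix (Fin 5) (Fin 5) ℝ[X]).det, fun t => ?_⟩
  have h := RingHom.map_det (Polynomial.evalRingHom t)
    (Matrix.of fun i j => C (hom x (v i) j) * (1 - X) + C (hom m (v i) j) * X :
    Matrix (Fin 5) (Fin 5) ℝ[X])
  rw [Polynomial.coe_evalRingHom] at h
  rw [h]
  unfold D
  congr 1
  ext i j
  simp only [RingHom.mapMatrix_apply, Matrix.map_apply, Matrix.of_apply,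
    Polynomial.coe_evalRingHom, eval_add, eval_mul, eval_C, eval_sub, eval_one, eval_X]
  refine Fin.cases ?_ (fun k => ?_) j
  · simp [hom]
  · simp [hom, seg]
    ring

/-- generic points are dense -/
lemma exists_generic [Fintype V] (x : V × Fin 4 → ℝ) (O : Set (V × Fin 4 → ℝ)) (hO : IsOpen O)
    (hx : x ∈ O) : ∃ x' ∈ O, Generic x' := by
  classical
  set τ : V → ℝ := fun v => (Fintype.equivFin V v : ℕ) with hτ
  have hτi : Function.Injective τ := by
    intro u v h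
    have h' : ((Fintype.equivFin V u : ℕ) : ℝ) = ((Fintype.equivFin V v : ℕ) : ℝ) := h
    exact (Fintype.equivFin V).injective (Fin.ext (Nat.cast_injective h'))
  have hcont : Continuous (fun t : ℝ => seg x (mom τ) t) := by
    refine continuous_pi fun q => ?_
    unfold seg
    fun_prop
  have h0 : seg x (mom τ) 0 = x := by
    funext q; simp [seg]
  have h1 : seg x (mom τ) 1 = mom τ := by
    funext q; simp [seg]
  have hnb : (fun t : ℝ => seg x (mom τ) t) ⁻¹' O ∈ nhds (0 : ℝ) := by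
    apply (hO.preimage hcont).mem_nhds
    rw [Set.mem_preimage, h0]
    exact hx
  obtain ⟨δ, hδ, hball⟩ := Metric.mem_nhds_iff.1 hnb
  choose P hP using fun v => seg_poly x (mom τ) v
  have hPne : ∀ v : Fin 5 → V, Function.Injective v → P v ≠ 0 := by
    intro v hv h
    have h2 := hP v 1
    rw [h, Polynomial.eval_zero, h1] at h2
    exact mom_generic τ hτi v hv h2.symm
  set Q : Polynomial ℝ := ∏ v ∈ univ.filter (fun v : Fin 5 → V => Function.Injective v), P v with hQ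
  have hQne : Q ≠ 0 := by
    rw [hQ, prod_ne_zero_iff]
    intro v hv
    exact hPne v (by simpa using hv)
  have hinf : (Set.Ioo (0 : ℝ) δ).Infinite := Set.Ioo_infinite hδ
  obtain ⟨t, ht, htQ⟩ := hinf.exists_notMem_finset Q.roots.toFinset
  refine ⟨seg x (mom τ) t, ?_, ?_⟩
  · apply hball
    rw [Metric.mem_ball, Real.dist_eq, sub_zero, abs_of_pos ht.1]
    exact ht.2
  · intro v hv h
    apply htQ
    rw [Multiset.mem_toFinset, Polynomial.mem_roots hQne, Polynomial.IsRoot.def, hQ,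
      Polynomial.eval_prod]
    refine prod_eq_zero (i := v) (by simpa using hv) ?_
    rw [hP, h]

end generic

/-! ### Placements without meeting triangles -/

section meet

variable {A B Y : Type}

/-- the vertices -/
abbrev Vt (A B Y : Type) := A ⊕ B ⊕ Y

/-- the three vertices of the triangle of the cell `p` -/
def tri (g : A × B → Y) (p : A × B) : Fin 3 → Vt A B Y :=
  ![Sum.inl p.1, Sum.inr (Sum.inl p.2), Sum.inr (Sum.inr (g p))]

/-- the point with index `v` -/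
def pt {V : Type} (x : V × Fin 4 → ℝ) (v : V) : Fin 4 → ℝ := fun k => x (v, k)

/-- vertex disjoint triangles do not meet -/
def NoMeet (g : A × B → Y) (x : Vt A B Y × Fin 4 → ℝ) : Prop :=
  ∀ p p' : A × B, p.1 ≠ p'.1 → p.2 ≠ p'.2 → g p ≠ g p' →
    Disjoint (convexHull ℝ (Set.range fun i => pt x (tri g p i)))
      (convexHull ℝ (Set.range fun i => pt x (tri g p' i)))

lemma noMeet_open [Finite A] [Finite B] (g : A × B → Y) (x : Vt A B Y × Fin 4 → ℝ)
    (h : NoMeet g x) :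
    ∃ O : Set (Vt A B Y × Fin 4 → ℝ), IsOpen O ∧ x ∈ O ∧ ∀ x' ∈ O, NoMeet g x' := by
  classical
  have hsep : ∀ p p' : A × B, ∃ f : (Fin 4 → ℝ) →L[ℝ] ℝ, ∃ c : ℝ,
      (p.1 ≠ p'.1 → p.2 ≠ p'.2 → g p ≠ g p' → (∀ i, f (pt x (tri g p i)) < c) ∧
        ∀ i, c < f (pt x (tri g p' i))) := by
    intro p p'
    by_cases hd : p.1 ≠ p'.1 ∧ p.2 ≠ p'.2 ∧ g p ≠ g p'
    · have hdis := h p p' hd.1 hd.2.1 hd.2.2
      have hc1 : IsCompact (convexHull ℝ (Set.range fun i => pt x (tri g p i))) :=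
        (Set.finite_range _).isCompact_convexHull ℝ
      have hc2 : IsClosed (convexHull ℝ (Set.range fun i => pt x (tri g p' i))) :=
        ((Set.finite_range _).isCompact_convexHull ℝ).isClosed
      obtain ⟨f, u, v, h1, h2, h3⟩ := geometric_hahn_banach_compact_closed
        (convex_convexHull ℝ _) hc1 (convex_convexHull ℝ _) hc2 hdis
      refine ⟨f, u, fun _ _ _ => ⟨fun i => h1 _ (subset_convexHull ℝ _ ⟨i, rfl⟩), fun i => ?_⟩⟩
      exact h2.trans (h3 _ (subset_convexHull ℝ _ ⟨i, rfl⟩))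
    · exact ⟨0, 0, fun h1 h2 h3 => absurd ⟨h1, h2, h3⟩ hd⟩
  choose f c hf using hsep
  have hfc : ∀ (F : (Fin 4 → ℝ) →L[ℝ] ℝ) (v : Vt A B Y),
      Continuous (fun x' : Vt A B Y × Fin 4 → ℝ => F (pt x' v)) := by
    intro F v
    refine F.continuous.comp (continuous_pi fun k => ?_)
    unfold pt
    fun_prop
  refine ⟨⋂ p : A × B, ⋂ p' : A × B, {x' | p.1 ≠ p'.1 → p.2 ≠ p'.2 → g p ≠ g p' →
    (∀ i, f p p' (pt x' (tri g p i)) < c p p') ∧ ∀ i, c p p' < f p p' (pt x' (tri g p' i))},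
    ?_, ?_, ?_⟩
  · refine isOpen_iInter_of_finite fun p => isOpen_iInter_of_finite fun p' => ?_
    by_cases hd : p.1 ≠ p'.1 ∧ p.2 ≠ p'.2 ∧ g p ≠ g p'
    · have e : {x' : Vt A B Y × Fin 4 → ℝ | p.1 ≠ p'.1 → p.2 ≠ p'.2 → g p ≠ g p' →
          (∀ i, f p p' (pt x' (tri g p i)) < c p p') ∧
            ∀ i, c p p' < f p p' (pt x' (tri g p' i))} =
          (⋂ i, {x' | f p p' (pt x' (tri g p i)) < c p p'}) ∩
            ⋂ i, {x' | c p p' < f p p' (pt x' (tri g p' i))} := by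
        ext x'
        simp only [Set.mem_ofPred_eq, Set.mem_inter_iff, Set.mem_iInter]
        exact ⟨fun h => h hd.1 hd.2.1 hd.2.2, fun h _ _ _ => h⟩
      rw [e]
      refine (isOpen_iInter_of_finite fun i => ?_).inter (isOpen_iInter_of_finite fun i => ?_)
      · exact isOpen_lt (hfc _ _) continuous_const
      · exact isOpen_lt continuous_const (hfc _ _)
    · have e : {x' : Vt A B Y × Fin 4 → ℝ | p.1 ≠ p'.1 → p.2 ≠ p'.2 → g p ≠ g p' →
          (∀ i, f p p' (pt x' (tri g p i)) < c p p') ∧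
            ∀ i, c p p' < f p p' (pt x' (tri g p' i))} = Set.univ := by
        ext x'
        simp only [Set.mem_ofPred_eq, Set.mem_univ, iff_true]
        exact fun h1 h2 h3 => absurd ⟨h1, h2, h3⟩ hd
      rw [e]
      exact isOpen_univ
  · simp only [Set.mem_iInter]
    intro p p'
    exact hf p p'
  · intro x' hx' p p' h1 h2 h3
    simp only [Set.mem_iInter, Set.mem_ofPred_eq] at hx'
    obtain ⟨h4, h5⟩ := hx' p p' h1 h2 h3
    rw [Set.disjoint_left]
    intro z hz hz'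
    have h6 : z ∈ {z | f p p' z < c p p'} := by
      refine convexHull_min ?_ (convex_halfSpace_lt (f p p').toLinearMap.isLinear _) hz
      rintro _ ⟨i, rfl⟩
      exact h4 i
    have h7 : z ∈ {z | c p p' < f p p' z} := by
      refine convexHull_min ?_ (convex_halfSpace_gt (f p p').toLinearMap.isLinear _) hz'
      rintro _ ⟨i, rfl⟩
      exact h5 i
    have h6' : f p p' z < c p p' := h6
    have h7' : c p p' < f p p' z := h7
    exact lt_asymm h6' h7'

/-- the crossing relation of the edges given by orientation signs -/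
def rel (s : (Fin 5 → Vt A B Y) → SignType) (u v : A × B × Y) : Prop :=
  (u.1 ≠ v.1 ∧ u.2.1 ≠ v.2.1 ∧ u.2.2 ≠ v.2.2) ∧
  CrossS s ![Sum.inl u.1, Sum.inr (Sum.inl u.2.1), Sum.inr (Sum.inr u.2.2),
    Sum.inl v.1, Sum.inr (Sum.inl v.2.1), Sum.inr (Sum.inr v.2.2)]

lemma dense_rel (x : Vt A B Y × Fin 4 → ℝ) (hx : Generic x) : Dense333 (rel (sg x)) := by
  intro a b y ha hb hy
  obtain ⟨i, i', j, j', k, k', hi, hj, hk, h⟩ := vkf x hx (fun i => Sum.inl (a i))
    (fun i => Sum.inr (Sum.inl (b i))) (fun i => Sum.inr (Sum.inr (y i)))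
    (fun i j h => ha (Sum.inl_injective h))
    (fun i j h => hb (Sum.inl_injective (Sum.inr_injective h)))
    (fun i j h => hy (Sum.inr_injective (Sum.inr_injective h)))
    (fun i j h => by simp at h) (fun i j h => by simp at h) (fun i j h => by simp at h)
  exact ⟨i, i', j, j', k, k', hi, hj, hk, ⟨fun h => hi (ha h), fun h => hj (hb h),
    fun h => hk (hy h)⟩, h⟩

lemma mem_fam_of_noMeet [Fintype A] [Fintype B] [Fintype Y] [DecidableEq A] [DecidableEq B]
    [DecidableEq Y] (g : A × B → Y) (x : Vt A B Y × Fin 4 → ℝ) (h : NoMeet g x) :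
    g ∈ fam (rel (sg x)) univ := by
  rw [mem_fam]
  refine ⟨fun _ => mem_univ _, ?_⟩
  rintro p p' ⟨⟨h1, h2, h3⟩, hcr⟩
  obtain ⟨a, b, ha, hb, ha1, hb1, hab⟩ := cross_inter x _ hcr
  have hdis := h p p' h1 h2 h3
  rw [Set.disjoint_left] at hdis
  have hz : ∀ (q : A × B) (c : Fin 3 → ℝ), (∀ i, 0 ≤ c i) → ∑ i, c i = 1 →
      ∑ i, c i • pt x (tri g q i) ∈ convexHull ℝ (Set.range fun i => pt x (tri g q i)) := by
    intro q c hc hc1
    exact (convex_convexHull ℝ _).sum_mem (fun i _ => hc i) hc1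
      (fun i _ => subset_convexHull ℝ _ ⟨i, rfl⟩)
  refine hdis (hz p a ha ha1) ?_
  have e : ∑ i, a i • pt x (tri g p i) = ∑ i, b i • pt x (tri g p' i) := by
    funext k
    rw [Finset.sum_apply, Finset.sum_apply, Fin.sum_univ_three, Fin.sum_univ_three]
    simp only [Pi.smul_apply, smul_eq_mul, pt, tri]
    exact hab k
  rw [e]
  exact hz p' b hb hb1

end meet

/-! ### The count -/

section count

open MvPolynomial

variable {V : Type}

/-- the orientation determinant as a polynomial -/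
noncomputable def Dpoly (v : Fin 5 → V) : MvPolynomial (V × Fin 4) ℝ :=
  (Matrix.of fun i (j : Fin 5) =>
    (Fin.cons 1 (fun k => X (v i, k)) : Fin 5 → MvPolynomial (V × Fin 4) ℝ) j).det

lemma eval_Dpoly (v : Fin 5 → V) (x : V × Fin 4 → ℝ) : eval x (Dpoly v) = D x v := by
  unfold Dpoly D
  rw [RingHom.map_det]
  congr 1
  ext i j
  simp only [RingHom.mapMatrix_apply, Matrix.map_apply, Matrix.of_apply, hom]
  refine Fin.cases ?_ (fun k => ?_) j
  · simp
  · simp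

lemma degree_Dpoly (v : Fin 5 → V) : (Dpoly v).totalDegree ≤ 5 := by
  unfold Dpoly
  rw [Matrix.det_apply]
  refine totalDegree_finsetSum_le fun σ _ => ?_
  have h : ∀ i j, ((Fin.cons 1 (fun k => X (v i, k)) : Fin 5 → MvPolynomial (V × Fin 4) ℝ)
      j).totalDegree ≤ 1 := by
    intro i j
    refine Fin.cases ?_ (fun k => ?_) j
    · simp
    · simp
  have h2 : (∏ i, (Matrix.of fun i (j : Fin 5) =>
      (Fin.cons 1 (fun k => X (v i, k)) : Fin 5 → MvPolynomial (V × Fin 4) ℝ) j) (σ i) i).totalDegree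
      ≤ 5 := by
    refine (totalDegree_finsetProd _ _).trans ?_
    refine (sum_le_sum fun i _ => h (σ i) i).trans ?_
    simp
  refine le_trans (totalDegree_smul_le _ _) h2

open Classical in
theorem few_good (N q : ℕ) (α : ℝ) (hα : 0 < α) (hα1 : α ≤ 1) (hN : 14 ≤ α ^ 27 * N)
    (hq : (1 - α ^ 27 / 1458) ^ q ≤ α) :
    (((univ : Finset (Fin N × Fin N → Fin (3 * N))).filter
      (fun g => ∃ x, NoMeet g x)).card : ℝ) ≤
      ((20 * (5 * N) ^ 5 + 2) ^ (20 * N) : ℕ) *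
        ((3 * (N : ℝ) ^ 3 + 1) ^ q * (3 * α * N) ^ (N ^ 2)) := by
  set Vx := Vt (Fin N) (Fin N) (Fin (3 * N)) with hVx
  set S := (univ : Finset (Fin N × Fin N → Fin (3 * N))).filter (fun g => ∃ x, NoMeet g x) with hS
  set Bd : ℝ := (3 * (N : ℝ) ^ 3 + 1) ^ q * (3 * α * N) ^ (N ^ 2) with hBd
  have hBd0 : 0 ≤ Bd := by positivity
  -- a generic placement for every good map
  have hch : ∀ g : Fin N × Fin N → Fin (3 * N), ∃ x : Vx × Fin 4 → ℝ,
      g ∈ S → (Generic x ∧ NoMeet g x) := by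
    intro g
    by_cases hg : g ∈ S
    · rw [hS, mem_filter] at hg
      obtain ⟨x, hx⟩ := hg.2
      obtain ⟨O, hO, hxO, hOm⟩ := noMeet_open g x hx
      obtain ⟨x', hx', hgen⟩ := exists_generic x O hO hxO
      exact ⟨x', fun _ => ⟨hgen, hOm x' hx'⟩⟩
    · exact ⟨fun _ => 0, fun h => absurd h hg⟩
  choose xg hxg using hch
  -- the number of patterns
  have hpat : (Set.range (fun x : Vx × Fin 4 → ℝ => fun v : Fin 5 → Vx =>
      SignType.sign (eval x (Dpoly v)))).ncard ≤ (20 * (5 * N) ^ 5 + 2) ^ (20 * N) := by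
    have h := Pool.Agent.Helper448.Warren.ncard_sign_patterns_le
      (σ := Vx × Fin 4) (ι := Fin 5 → Vx) Dpoly 5 degree_Dpoly
    refine h.trans (le_of_eq ?_)
    have e1 : Fintype.card Vx = 5 * N := by
      simp only [hVx, Vt, Fintype.card_sum, Fintype.card_fin]
      ring
    rw [Fintype.card_prod, Fintype.card_pi, prod_const, e1]
    simp only [card_univ, Fintype.card_fin]
    have e2 : 4 * (5 * N) ^ 5 * 5 + 2 = 20 * (5 * N) ^ 5 + 2 := by ring
    have e3 : 5 * N * 4 = 20 * N := by ring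
    rw [e2, e3]
  have himg : (S.image (fun g => sg (xg g))).card ≤ (20 * (5 * N) ^ 5 + 2) ^ (20 * N) := by
    refine le_trans ?_ hpat
    rw [← Set.ncard_coe_finset]
    refine Set.ncard_le_ncard ?_ (Set.toFinite _)
    intro s hs
    rw [coe_image] at hs
    obtain ⟨g, _, rfl⟩ := hs
    refine ⟨xg g, ?_⟩
    funext v
    show SignType.sign (eval (xg g) (Dpoly v)) = sg (xg g) v
    rw [eval_Dpoly]
    rfl
  have hfib : ∀ s ∈ S.image (fun g => sg (xg g)),
      (S.filter (fun g => sg (xg g) = s)).card ≤ ⌊Bd⌋₊ := by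
    intro s hs
    obtain ⟨g0, hg0, hg0s⟩ := mem_image.1 hs
    apply Nat.le_floor
    have h1 : S.filter (fun g => sg (xg g) = s) ⊆ fam (rel s) univ := by
      intro g hg
      rw [mem_filter] at hg
      have := mem_fam_of_noMeet g (xg g) (hxg g hg.1).2
      rw [hg.2] at this
      exact this
    have h2 : Dense333 (rel s) := by
      rw [← hg0s]
      exact dense_rel _ (hxg g0 hg0).1
    have h3 := fam_le (A := Fin N) (B := Fin N) (Y := Fin (3 * N)) N (Fintype.card_fin _)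
      (Fintype.card_fin _) (Fintype.card_fin _) (rel s) h2 α hα hα1 hN q hq univ
    refine le_trans ?_ h3
    exact_mod_cast card_le_card h1
  have hmain := card_le_mul_card_image (f := fun g => sg (xg g)) S ⌊Bd⌋₊ hfib
  have hfl : ((⌊Bd⌋₊ : ℕ) : ℝ) ≤ Bd := Nat.floor_le hBd0
  calc (S.card : ℝ) ≤ ((⌊Bd⌋₊ * (S.image (fun g => sg (xg g))).card : ℕ) : ℝ) := by
        exact_mod_cast hmain
    _ = (⌊Bd⌋₊ : ℝ) * ((S.image (fun g => sg (xg g))).card : ℝ) := by push_cast; ring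
    _ ≤ Bd * ((20 * (5 * N) ^ 5 + 2) ^ (20 * N) : ℕ) := by
        gcongr
    _ = _ := by ring

/-- the asymptotic comparison -/
theorem exists_large (q : ℕ) (c : ℝ) : ∃ N : ℕ, 0 < N ∧ c ≤ N ∧
    (((20 * (5 * N) ^ 5 + 2) ^ (20 * N) : ℕ) : ℝ) *
        ((3 * (N : ℝ) ^ 3 + 1) ^ q * (3 * (1 / 4) * N) ^ (N ^ 2)) < (N : ℝ) ^ (N ^ 2) := by
  have h1 := tendsto_pow_const_div_const_pow_of_one_lt 124 (show (1 : ℝ) < 4 / 3 by norm_num)
  have h2 : ∀ᶠ n : ℕ in Filter.atTop, (n : ℝ) ^ 124 / (4 / 3) ^ n < 1 :=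
    h1.eventually (gt_mem_nhds one_pos)
  obtain ⟨N, hN1, hN2, hN3, hN4⟩ := (h2.and ((Filter.eventually_ge_atTop q).and
    ((Filter.eventually_ge_atTop 62502).and
      (Filter.eventually_ge_atTop ⌈c⌉₊)))).exists
  have hNr : (62502 : ℝ) ≤ N := by exact_mod_cast hN3
  have hN0 : (0 : ℝ) < N := by linarith
  have hN0' : 0 < N := by exact_mod_cast hN0
  refine ⟨N, hN0', (Nat.le_ceil c).trans (by exact_mod_cast hN4), ?_⟩
  have e1 : (((20 * (5 * N) ^ 5 + 2) ^ (20 * N) : ℕ) : ℝ) ≤ (N : ℝ) ^ (120 * N) := by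
    push_cast
    have h3 : 20 * (5 * (N : ℝ)) ^ 5 + 2 ≤ (N : ℝ) ^ 6 := by
      have h4 : (1 : ℝ) ≤ (N : ℝ) ^ 5 := one_le_pow₀ (by linarith)
      calc 20 * (5 * (N : ℝ)) ^ 5 + 2 = 62500 * (N : ℝ) ^ 5 + 2 := by ring
        _ ≤ 62502 * (N : ℝ) ^ 5 := by linarith
        _ ≤ N * (N : ℝ) ^ 5 := by gcongr
        _ = (N : ℝ) ^ 6 := by ring
    calc (20 * (5 * (N : ℝ)) ^ 5 + 2) ^ (20 * N) ≤ ((N : ℝ) ^ 6) ^ (20 * N) := by gcongr
      _ = (N : ℝ) ^ (120 * N) := by rw [← pow_mul]; congr 1; ring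
  have e2 : (3 * (N : ℝ) ^ 3 + 1) ^ q ≤ (N : ℝ) ^ (4 * N) := by
    have h3 : 3 * (N : ℝ) ^ 3 + 1 ≤ (N : ℝ) ^ 4 := by
      have h4 : (1 : ℝ) ≤ (N : ℝ) ^ 3 := one_le_pow₀ (by linarith)
      calc 3 * (N : ℝ) ^ 3 + 1 ≤ 4 * (N : ℝ) ^ 3 := by linarith
        _ ≤ N * (N : ℝ) ^ 3 := by gcongr; linarith
        _ = (N : ℝ) ^ 4 := by ring
    have h5 : (1 : ℝ) ≤ (N : ℝ) ^ 4 := one_le_pow₀ (by linarith)
    calc (3 * (N : ℝ) ^ 3 + 1) ^ q ≤ ((N : ℝ) ^ 4) ^ q := by gcongr
      _ ≤ ((N : ℝ) ^ 4) ^ N := pow_le_pow_right₀ h5 hN2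
      _ = (N : ℝ) ^ (4 * N) := by rw [← pow_mul]
  have e3 : (3 * (1 / 4) * (N : ℝ)) ^ (N ^ 2) = (3 / 4) ^ (N ^ 2) * (N : ℝ) ^ (N ^ 2) := by
    rw [← mul_pow]; congr 1; ring
  have e4 : (N : ℝ) ^ (124 * N) * (3 / 4 : ℝ) ^ (N ^ 2) < 1 := by
    have h3 : (N : ℝ) ^ 124 * (3 / 4 : ℝ) ^ N < 1 := by
      have h4 : (N : ℝ) ^ 124 / (4 / 3) ^ N = (N : ℝ) ^ 124 * (3 / 4 : ℝ) ^ N := by
        rw [div_eq_mul_inv, ← inv_pow]
        norm_num
      rw [← h4]
      exact hN1
    have h5 : (N : ℝ) ^ (124 * N) * (3 / 4 : ℝ) ^ (N ^ 2) = ((N : ℝ) ^ 124 * (3 / 4 : ℝ) ^ N) ^ N := by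
      rw [mul_pow, ← pow_mul, ← pow_mul, pow_two]
    rw [h5]
    exact pow_lt_one₀ (by positivity) h3 hN0'.ne'
  rw [e3]
  calc (((20 * (5 * N) ^ 5 + 2) ^ (20 * N) : ℕ) : ℝ) *
        ((3 * (N : ℝ) ^ 3 + 1) ^ q * ((3 / 4) ^ (N ^ 2) * (N : ℝ) ^ (N ^ 2)))
      ≤ (N : ℝ) ^ (120 * N) * ((N : ℝ) ^ (4 * N) * ((3 / 4) ^ (N ^ 2) * (N : ℝ) ^ (N ^ 2))) := by
        gcongr
    _ = ((N : ℝ) ^ (124 * N) * (3 / 4 : ℝ) ^ (N ^ 2)) * (N : ℝ) ^ (N ^ 2) := by
        have : (N : ℝ) ^ (124 * N) = (N : ℝ) ^ (120 * N) * (N : ℝ) ^ (4 * N) := by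
          rw [← pow_add]; congr 1; ring
        rw [this]; ring
    _ < 1 * (N : ℝ) ^ (N ^ 2) := by gcongr
    _ = _ := one_mul _

/-- There is a proper colouring none of whose placements in `ℝ⁴` is free of meeting pairs. -/
theorem exists_bad : ∃ N : ℕ, 0 < N ∧ ∃ g : Fin N × Fin N → Fin (3 * N), Proper g ∧
    ∀ x : Vt (Fin N) (Fin N) (Fin (3 * N)) × Fin 4 → ℝ, ¬ NoMeet g x := by
  classical
  set α : ℝ := 1 / 4 with hα
  have hα0 : 0 < α := by rw [hα]; norm_num
  have hα1 : α ≤ 1 := by rw [hα]; norm_num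
  obtain ⟨q, hq⟩ : ∃ q : ℕ, (1 - α ^ 27 / 1458) ^ q < α := by
    refine exists_pow_lt_of_lt_one hα0 ?_
    have : 0 < α ^ 27 / 1458 := by positivity
    linarith
  obtain ⟨N, hN0, hNc, hlt⟩ := exists_large q (14 / α ^ 27)
  have hN : 14 ≤ α ^ 27 * N := by
    rw [div_le_iff₀ (by positivity)] at hNc
    linarith
  refine ⟨N, hN0, ?_⟩
  by_contra hcon
  push Not at hcon
  have h1 := few_good N q α hα0 hα1 hN hq.le
  have h2 := count_proper (A := Fin N) (B := Fin N) (Y := Fin (3 * N)) N hN0 (Fintype.card_fin _)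
    (Fintype.card_fin _) (Fintype.card_fin _)
  have h3 : (univ.filter (fun g : Fin N × Fin N → Fin (3 * N) => Proper g)).card ≤
      ((univ : Finset (Fin N × Fin N → Fin (3 * N))).filter (fun g => ∃ x, NoMeet g x)).card := by
    refine card_le_card fun g hg => ?_
    rw [mem_filter] at hg ⊢
    exact ⟨mem_univ _, hcon g hg.2⟩
  have h4 : ((N ^ (N ^ 2) : ℕ) : ℝ) ≤
      (((univ : Finset (Fin N × Fin N → Fin (3 * N))).filter
        (fun g => ∃ x, NoMeet g x)).card : ℝ) := by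
    exact_mod_cast h2.trans h3
  push_cast at h4
  have h5 := h4.trans h1
  rw [hα] at h5
  linarith

end count

end Pool.Agent.H129.CX.Exists
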