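import Mathlib

set_option autoImplicit false

namespace Pool.Agent.H129.CX.Moments

open Finset

variable {W : Type} [Fintype W]

/-- half of one minus the sum of the squares -/
noncomputable def qf (x : W → ℝ) : ℝ := (1 - ∑ v, x v ^ 2) / 2

/-- a probability vector -/
def Prb (x : W → ℝ) : Prop := (∀ v, 0 ≤ x v) ∧ ∑ v, x v = 1

lemma Prb.le_one {x : W → ℝ} (h : Prb x) (v : W) : x v ≤ 1 := by
  rw [← h.2]
  exact Finset.single_le_sum (fun i _ => h.1 i) (mem_univ v)

lemma Prb.eq_of_one {x x' : W → ℝ} (h : Prb x) (h' : Prb x') (w : W) (hw : x w = 1)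
    (hw' : x' w = 1) : x = x' := by
  classical
  have key : ∀ y : W → ℝ, Prb y → y w = 1 → ∀ v, v ≠ w → y v = 0 := by
    intro y hy hyw v hv
    have h1 := hy.2
    rw [← Finset.add_sum_erase _ _ (mem_univ w), hyw] at h1
    have h2 : ∑ u ∈ univ.erase w, y u = 0 := by linarith
    rw [Finset.sum_eq_zero_iff_of_nonneg (fun i _ => hy.1 i)] at h2
    exact h2 v (mem_erase.2 ⟨hv, mem_univ v⟩)
  funext v
  by_cases hv : v = w
  · rw [hv, hw, hw']
  · rw [key x h hw v hv, key x' h' hw' v hv]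

lemma moment_at (t x : W → ℝ) (w : W) : ∑ u, x u * (t u - t w) ^ 2 =
    ∑ u, x u * t u ^ 2 - 2 * t w * ∑ u, x u * t u + t w ^ 2 * ∑ u, x u := by
  rw [Finset.mul_sum, Finset.mul_sum, ← Finset.sum_sub_distrib, ← Finset.sum_add_distrib]
  refine sum_congr rfl fun u _ => ?_
  ring

variable {t x x' : W → ℝ} {D : ℝ}

lemma one_sub_le [DecidableEq W] (hx : Prb x) (hx' : Prb x')
    (h1 : ∑ u, x u * t u = ∑ u, x' u * t u)
    (h2 : ∑ u, x u * t u ^ 2 = ∑ u, x' u * t u ^ 2)
    (hsep : ∀ u w, u ≠ w → 1 ≤ (t u - t w) ^ 2) (hD : ∀ u w, (t u - t w) ^ 2 ≤ D) (w : W) :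
    1 - x w ≤ D * (1 - x' w) := by
  have e : ∑ u, x u * (t u - t w) ^ 2 = ∑ u, x' u * (t u - t w) ^ 2 := by
    rw [moment_at, moment_at, h1, h2, hx.2, hx'.2]
  have a1 : 1 - x w ≤ ∑ u, x u * (t u - t w) ^ 2 := by
    have h3 := hx.2
    rw [← Finset.add_sum_erase _ _ (mem_univ w)] at h3
    rw [← Finset.add_sum_erase _ _ (mem_univ w)]
    have h4 : ∑ u ∈ univ.erase w, x u ≤ ∑ u ∈ univ.erase w, x u * (t u - t w) ^ 2 := by
      refine sum_le_sum fun u hu => ?_
      have h5 := hsep u w (ne_of_mem_erase hu)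
      nlinarith [hx.1 u]
    have h5 : x w * (t w - t w) ^ 2 = 0 := by ring
    linarith
  have a2 : ∑ u, x' u * (t u - t w) ^ 2 ≤ D * (1 - x' w) := by
    have h3 := hx'.2
    rw [← Finset.add_sum_erase _ _ (mem_univ w)] at h3
    rw [← Finset.add_sum_erase _ _ (mem_univ w)]
    have h4 : ∑ u ∈ univ.erase w, x' u * (t u - t w) ^ 2 ≤ ∑ u ∈ univ.erase w, x' u * D := by
      refine sum_le_sum fun u _ => ?_
      exact mul_le_mul_of_nonneg_left (hD u w) (hx'.1 u)
    rw [← Finset.sum_mul] at h4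
    have h5 : x' w * (t w - t w) ^ 2 = 0 := by ring
    have h6 : ∑ u ∈ univ.erase w, x' u = 1 - x' w := by linarith
    rw [h6] at h4
    linarith
  linarith

/-- a large coordinate -/
lemma exists_max (hx' : Prb x') : ∃ w, 1 - x' w ≤ 2 * qf x' := by
  have hne : (univ : Finset W).Nonempty := by
    rw [Finset.nonempty_iff_ne_empty]
    intro h
    have := hx'.2
    rw [h, sum_empty] at this
    exact zero_ne_one this
  obtain ⟨w, _, hw⟩ := Finset.exists_max_image univ x' hne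
  refine ⟨w, ?_⟩
  have h1 : ∑ v, x' v ^ 2 ≤ x' w := by
    calc ∑ v, x' v ^ 2 ≤ ∑ v, x' w * x' v := by
          refine sum_le_sum fun v _ => ?_
          rw [pow_two]
          exact mul_le_mul_of_nonneg_right (hw v (mem_univ v)) (hx'.1 v)
      _ = x' w := by rw [← mul_sum, hx'.2, mul_one]
  unfold qf
  linarith

lemma qf_nonneg (hx : Prb x) : 0 ≤ qf x := by
  obtain ⟨w, hw⟩ := exists_max hx
  have := hx.le_one w
  linarith

lemma qf_le [DecidableEq W] (hx : Prb x) (hx' : Prb x')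
    (h1 : ∑ u, x u * t u = ∑ u, x' u * t u)
    (h2 : ∑ u, x u * t u ^ 2 = ∑ u, x' u * t u ^ 2)
    (hsep : ∀ u w, u ≠ w → 1 ≤ (t u - t w) ^ 2) (hD : ∀ u w, (t u - t w) ^ 2 ≤ D)
    (hD0 : 0 ≤ D) : qf x ≤ 2 * D * qf x' := by
  obtain ⟨w, hw⟩ := exists_max hx'
  have h3 := one_sub_le hx hx' h1 h2 hsep hD w
  have h4 : qf x ≤ 1 - x w := by
    have h5 : x w ^ 2 ≤ ∑ v, x v ^ 2 :=
      Finset.single_le_sum (f := fun v => x v ^ 2) (fun i _ => sq_nonneg (x i)) (mem_univ w)
    have h6 := hx.le_one w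
    have h7 := hx.1 w
    unfold qf
    nlinarith
  calc qf x ≤ 1 - x w := h4
    _ ≤ D * (1 - x' w) := h3
    _ ≤ D * (2 * qf x') := mul_le_mul_of_nonneg_left hw hD0
    _ = 2 * D * qf x' := by ring

lemma eq_of_qf_zero [DecidableEq W] (hx : Prb x) (hx' : Prb x')
    (h1 : ∑ u, x u * t u = ∑ u, x' u * t u)
    (h2 : ∑ u, x u * t u ^ 2 = ∑ u, x' u * t u ^ 2)
    (hsep : ∀ u w, u ≠ w → 1 ≤ (t u - t w) ^ 2) (hD : ∀ u w, (t u - t w) ^ 2 ≤ D)
    (hq : qf x' = 0) : x = x' := by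
  obtain ⟨w, hw⟩ := exists_max hx'
  have h3 := one_sub_le hx hx' h1 h2 hsep hD w
  have h4 : x' w = 1 := by
    have := hx'.le_one w
    rw [hq] at hw
    linarith
  have h5 : x w = 1 := by
    have := hx.le_one w
    rw [h4] at h3
    linarith
  exact hx.eq_of_one hx' w h5 h4

/-- a combination of at most three points of the parabola is determined by the point -/
lemma eq_of_three [DecidableEq W] (a b c : W) (hab : a ≠ b) (hac : a ≠ c)
    (hbc : b ≠ c) (hs : ∀ v, v ≠ a → v ≠ b → v ≠ c → x v = 0)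
    (hs' : ∀ v, v ≠ a → v ≠ b → v ≠ c → x' v = 0) (hx : Prb x) (hx' : Prb x')
    (h1 : ∑ u, x u * t u = ∑ u, x' u * t u)
    (h2 : ∑ u, x u * t u ^ 2 = ∑ u, x' u * t u ^ 2)
    (hsep : ∀ u w, u ≠ w → 1 ≤ (t u - t w) ^ 2) : x = x' := by
  have h0 : ∑ u, x u = ∑ u, x' u := by rw [hx.2, hx'.2]
  have key : ∀ p q r : W, p ≠ q → p ≠ r → q ≠ r →
      (∀ v, v ≠ p → v ≠ q → v ≠ r → x v = 0) → (∀ v, v ≠ p → v ≠ q → v ≠ r → x' v = 0) →
      x p = x' p := by
    intro p q r hpq hpr hqr hs hs'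
    have e : ∀ y : W → ℝ, (∀ v, v ≠ p → v ≠ q → v ≠ r → y v = 0) →
        ∑ u, y u * ((t u - t q) * (t u - t r)) = y p * ((t p - t q) * (t p - t r)) := by
      intro y hy
      refine Finset.sum_eq_single p (fun v _ hv => ?_) (fun h => absurd (mem_univ p) h)
      by_cases hvq : v = q
      · rw [hvq]; ring
      · by_cases hvr : v = r
        · rw [hvr]; ring
        · rw [hy v hv hvq hvr]; ring
    have e' : ∀ y : W → ℝ, ∑ u, y u * ((t u - t q) * (t u - t r)) =
        ∑ u, y u * t u ^ 2 - (t q + t r) * ∑ u, y u * t u + t q * t r * ∑ u, y u := by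
      intro y
      rw [Finset.mul_sum, Finset.mul_sum, ← Finset.sum_sub_distrib, ← Finset.sum_add_distrib]
      refine sum_congr rfl fun u _ => ?_
      ring
    have h3 : x p * ((t p - t q) * (t p - t r)) = x' p * ((t p - t q) * (t p - t r)) := by
      rw [← e x hs, ← e x' hs', e', e', h0, h1, h2]
    have h4 : t p - t q ≠ 0 := by
      intro h
      have := hsep p q hpq
      rw [h] at this
      norm_num at this
    have h5 : t p - t r ≠ 0 := by
      intro h
      have := hsep p r hpr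
      rw [h] at this
      norm_num at this
    exact mul_right_cancel₀ (mul_ne_zero h4 h5) h3
  funext v
  by_cases hva : v = a
  · rw [hva]
    exact key a b c hab hac hbc hs hs'
  · by_cases hvb : v = b
    · rw [hvb]
      exact key b a c hab.symm hbc hac (fun v h1 h2 h3 => hs v h2 h1 h3)
        (fun v h1 h2 h3 => hs' v h2 h1 h3)
    · by_cases hvc : v = c
      · rw [hvc]
        exact key c a b hac.symm hbc.symm hab (fun v h1 h2 h3 => hs v h2 h3 h1)
          (fun v h1 h2 h3 => hs' v h2 h3 h1)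
      · rw [hs v hva hvb hvc, hs' v hva hvb hvc]

end Pool.Agent.H129.CX.Moments
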